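import Mathlib

/-! # Unique colourability of `K_n × Λ` and the dense gadget -/

set_option autoImplicit false

namespace CritDens

/-- Greenwell–Lovász: if `Λ` is connected and not `n`-colourable, then every proper `n`-colouring
of `K_n × Λ` is given by the first coordinate. -/
lemma unique_colouring {n : ℕ} {L : Type} {Λ : SimpleGraph L} (hconn : Λ.Connected)
    (hχ : ¬ Λ.Colorable n) (c : Fin n → L → Fin n)
    (hc : ∀ i j f f', i ≠ j → Λ.Adj f f' → c i f ≠ c j f') :
    ∃ π : Fin n → Fin n, Function.Injective π ∧ ∀ i f, c i f = π i := by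
  have h1 : ∃ f₀, Function.Injective fun i => c i f₀ := by
    by_contra hne
    push Not at hne
    have h2 : ∀ f, ∃ a b, a ≠ b ∧ c a f = c b f := by
      intro f
      have := hne f
      rw [Function.Injective] at this
      push Not at this
      obtain ⟨a, b, hab, hne⟩ := this
      exact ⟨a, b, hne, hab⟩
    choose a b hab hcab using h2
    apply hχ
    refine ⟨SimpleGraph.Coloring.mk (fun f => c (a f) f) ?_⟩
    intro f f' hff' heq
    by_cases h : a f = a f'
    · have h3 : b f ≠ a f' := by rw [← h]; exact (hab f).symm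
      exact hc _ _ _ _ h3 hff' (by rw [← hcab f]; exact heq)
    · exact hc _ _ _ _ h hff' heq
  obtain ⟨f₀, hf₀⟩ := h1
  refine ⟨fun i => c i f₀, hf₀, ?_⟩
  have key : ∀ f f', Λ.Adj f f' → (∀ i, c i f = c i f₀) → ∀ i, c i f' = c i f₀ := by
    intro f f' hff' hi j
    obtain ⟨i, hij⟩ := (Finite.surjective_of_injective hf₀) (c j f')
    simp only at hij
    by_cases h : i = j
    · subst h; exact hij.symm
    · exact absurd ((hi i).trans hij) (hc i j f f' h hff')
  intro i f
  obtain ⟨p⟩ := hconn.preconnected f₀ f
  have : ∀ (u v : L) (q : Λ.Walk u v), (∀ i, c i u = c i f₀) → ∀ i, c i v = c i f₀ := by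
    intro u v q
    induction q with
    | nil => exact id
    | cons h _ ih => exact fun hu => ih (key _ _ h hu)
  exact this _ _ p (fun _ => rfl) i

/-- Vertices of the bipartite gadget. -/
inductive GV (N : ℕ) : Type
  | a (s : Bool) (i : Fin N)
  | z (s : Bool) (i : Fin N)
  | y (s : Bool) (i : Fin (N + 1))

/-- The gadget has `6 N + 2` vertices. -/
def gvEquiv (N : ℕ) : GV N ≃ Bool × (Fin N ⊕ Fin N ⊕ Fin (N + 1)) where
  toFun
    | .a s i => (s, Sum.inl i)
    | .z s i => (s, Sum.inr (Sum.inl i))
    | .y s i => (s, Sum.inr (Sum.inr i))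
  invFun
    | (s, Sum.inl i) => .a s i
    | (s, Sum.inr (Sum.inl i)) => .z s i
    | (s, Sum.inr (Sum.inr i)) => .y s i
  left_inv := by rintro (⟨s, i⟩ | ⟨s, i⟩ | ⟨s, i⟩) <;> rfl
  right_inv := by rintro ⟨s, (i | i | i)⟩ <;> rfl

/-- The low colour of a side. -/
def lo : Bool → ℕ
  | false => 0
  | true => 1

/-- Side of the bipartition. -/
def pos {N : ℕ} : GV N → Bool
  | .a s _ => s
  | .z s _ => !s
  | .y s _ => s

/-- Forbidden colours. -/
inductive Forb (N : ℕ) : GV N → ℕ → Prop
  | big (x : GV N) (t : ℕ) : 3 ≤ t → Forb N x t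
  | a (s : Bool) (i : Fin N) : Forb N (.a s i) (lo !s)
  | y (s : Bool) (i : Fin (N + 1)) : Forb N (.y s i) (lo s)
  | y0 (s : Bool) : Forb N (.y s 0) 2
  | yN (s : Bool) : Forb N (.y s (Fin.last N)) (lo !s)

variable {n N : ℕ} {L : Type}

/-- The end of the edge `α β` prescribed by a Boolean. -/
def edgeEnd (α β : L) : Bool → L
  | false => α
  | true => β

/-- The generating relation of the big graph. -/
inductive Rel (n N : ℕ) {L : Type} (Λ : SimpleGraph L) (α β : L) :
    (Fin n × L) ⊕ GV N → (Fin n × L) ⊕ GV N → Prop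
  | prod (t t' : Fin n) (f f' : L) : t ≠ t' → Λ.Adj f f' →
      Rel n N Λ α β (Sum.inl (t, f)) (Sum.inl (t', f'))
  | ab (i j : Fin N) : Rel n N Λ α β (Sum.inr (.a false i)) (Sum.inr (.a true j))
  | az (s : Bool) (i : Fin N) : Rel n N Λ α β (Sum.inr (.a s i)) (Sum.inr (.z s i))
  | yz (s : Bool) (i : Fin N) : Rel n N Λ α β (Sum.inr (.y s i.castSucc)) (Sum.inr (.z s i))
  | zy (s : Bool) (i : Fin N) : Rel n N Λ α β (Sum.inr (.y s i.succ)) (Sum.inr (.z s i))
  | hub (x : GV N) (t : Fin n) : Forb N x t →
      Rel n N Λ α β (Sum.inr x) (Sum.inl (t, edgeEnd α β (!(pos x))))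

/-- The big graph. -/
def big (n N : ℕ) {L : Type} (Λ : SimpleGraph L) (α β : L) :
    SimpleGraph ((Fin n × L) ⊕ GV N) := SimpleGraph.fromRel (Rel n N Λ α β)

/-- The projection of the big graph to `Λ`. -/
def proj (α β : L) : (Fin n × L) ⊕ GV N → L
  | Sum.inl p => p.2
  | Sum.inr x => edgeEnd α β (pos x)

lemma edgeEnd_adj {Λ : SimpleGraph L} {α β : L} (h : Λ.Adj α β) (s : Bool) :
    Λ.Adj (edgeEnd α β s) (edgeEnd α β (!s)) := by
  cases s
  · exact h
  · exact h.symm

/-- The projection is a homomorphism. -/
def projHom (n N : ℕ) {Λ : SimpleGraph L} {α β : L} (h : Λ.Adj α β) :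
    big n N Λ α β →g Λ where
  toFun := proj α β
  map_rel' := by
    intro u v huv
    have key : ∀ u v, Rel n N Λ α β u v → Λ.Adj (proj α β u) (proj α β v) := by
      intro u v huv
      cases huv with
      | prod t t' f f' _ h => exact h
      | ab i j => exact h
      | az s i => exact edgeEnd_adj h s
      | yz s i => exact edgeEnd_adj h s
      | zy s i => exact edgeEnd_adj h s
      | hub x t _ => exact edgeEnd_adj h _
    rw [big, SimpleGraph.fromRel_adj] at huv
    rcases huv.2 with h1 | h1
    · exact key _ _ h1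
    · exact (key _ _ h1).symm

/-- Adjacency from the generating relation. -/
lemma big_adj {Λ : SimpleGraph L} {α β : L}
    {u v : (Fin n × L) ⊕ GV N} (huv : Rel n N Λ α β u v) : (big n N Λ α β).Adj u v := by
  rw [big, SimpleGraph.fromRel_adj]
  refine ⟨?_, Or.inl huv⟩
  rintro rfl
  cases huv with
  | prod t t' f f' ht _ => exact ht rfl

/-- The big graph is not `n`-colourable. -/
lemma big_not_colorable {Λ : SimpleGraph L} (hconn : Λ.Connected)
    (hχ : ¬ Λ.Colorable n) (α β : L) :
    ¬ (big n N Λ α β).Colorable n := by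
  rintro ⟨C⟩
  obtain ⟨π, hπ, hC⟩ := unique_colouring hconn hχ (fun t f => C (Sum.inl (t, f)))
    (fun i j f f' hij hff' => C.valid (big_adj (Rel.prod i j f f' hij hff')))
  have hsurj := Finite.surjective_of_injective hπ
  -- the normalised colouring of the gadget
  have hcol : ∀ x : GV N, ∃ t : Fin n, C (Sum.inr x) = π t := fun x => by
    obtain ⟨t, ht⟩ := hsurj (C (Sum.inr x))
    exact ⟨t, ht.symm⟩
  choose c hc using hcol
  have hforb : ∀ x, ¬ Forb N x (c x : ℕ) := by
    intro x hx
    have := C.valid (big_adj (Rel.hub x (c x) hx))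
    apply this
    rw [hc x, ← hC]
  have hprop : ∀ x y, Rel n N Λ α β (Sum.inr x) (Sum.inr y) → (c x : ℕ) ≠ c y := by
    intro x y hxy h
    apply C.valid (big_adj hxy)
    rw [hc x, hc y, Fin.ext h]
  have hlt : ∀ x, (c x : ℕ) < 3 := by
    intro x
    by_contra h
    push Not at h
    exact hforb x (Forb.big x _ h)
  have hlo : ∀ s, lo s < 2 := by intro s; cases s <;> simp [lo]
  have hlo2 : ∀ s, lo s + lo (!s) = 1 := by intro s; cases s <;> simp [lo]
  -- no side is completely low
  have side : ∀ s, ¬ ∀ i, (c (.a s i) : ℕ) = lo s := by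
    intro s hs
    have hy : ∀ i : Fin (N + 1), (c (.y s i) : ℕ) = lo !s := by
      intro i
      induction i using Fin.induction with
      | zero =>
          have h1 := hforb (.y s 0)
          have h2 : (c (.y s 0) : ℕ) ≠ lo s := by
            intro h; apply h1; rw [h]; exact Forb.y s 0
          have h3 : (c (.y s 0) : ℕ) ≠ 2 := by
            intro h; apply h1; rw [h]; exact Forb.y0 s
          have h4 := hlt (.y s 0)
          have h5 := hlo2 s
          have h6 := hlo s
          omega
      | succ i ih =>
          have h1 := hprop _ _ (Rel.az (Λ := Λ) (n := n) (α := α) (β := β) s i)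
          have h2 := hprop _ _ (Rel.yz (Λ := Λ) (n := n) (α := α) (β := β) s i)
          have h3 := hprop _ _ (Rel.zy (Λ := Λ) (n := n) (α := α) (β := β) s i)
          have h4 := hlt (.z s i)
          have h5 := hlo2 s
          have h6 := hlo s
          have h7 := hs i
          have h8 : (c (.y s i.succ) : ℕ) ≠ lo s := by
            intro h; apply hforb (.y s i.succ); rw [h]; exact Forb.y s _
          have h9 := hlt (.y s i.succ)
          omega
    apply hforb (.y s (Fin.last N))
    rw [hy]
    exact Forb.yN s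
  have h0 := side false
  have h1 := side true
  push Not at h0 h1
  obtain ⟨i, hi⟩ := h0
  obtain ⟨j, hj⟩ := h1
  have h2 : (c (.a false i) : ℕ) ≠ 1 := by
    intro h; apply hforb (.a false i); rw [h]; exact Forb.a false i
  have h3 : (c (.a true j) : ℕ) ≠ 0 := by
    intro h; apply hforb (.a true j); rw [h]; exact Forb.a true j
  have h4 := hlt (.a false i)
  have h5 := hlt (.a true j)
  have h6 := hprop _ _ (Rel.ab (Λ := Λ) (n := n) (α := α) (β := β) i j)
  simp only [lo] at hi hj
  omega

/-- Colouring of the gadget after deleting the edge `a false i₀ – a true j₀`. -/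
def gcol (k : Bool → Fin N) : GV N → ℕ
  | .a s i => if i = k s then 2 else lo s
  | .y s i => if (i : ℕ) ≤ (k s : ℕ) then lo !s else 2
  | .z s i => if (i : ℕ) < (k s : ℕ) then 2 else if i = k s then lo s else lo !s

lemma gcol_lt (k : Bool → Fin N) (x : GV N) : gcol k x < 3 := by
  cases x with
  | a s i => cases s <;> simp only [gcol, lo] <;> split_ifs <;> omega
  | y s i => cases s <;> simp only [gcol, lo, Bool.not_true, Bool.not_false] <;> split_ifs <;> omega
  | z s i => cases s <;> simp only [gcol, lo, Bool.not_true, Bool.not_false] <;> split_ifs <;> omega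

lemma gcol_forb (k : Bool → Fin N) (x : GV N) (t : ℕ) (h : Forb N x t) : gcol k x ≠ t := by
  cases h with
  | big x t h => have := gcol_lt k x; omega
  | a s i => cases s <;> simp only [gcol, lo, Bool.not_true, Bool.not_false] <;> split_ifs <;> omega
  | y s i => cases s <;> simp only [gcol, lo, Bool.not_true, Bool.not_false] <;> split_ifs <;> omega
  | y0 s =>
      cases s <;> simp [gcol, lo]
  | yN s =>
      have h1 := (k s).isLt
      cases s <;> simp only [gcol, lo, Bool.not_true, Bool.not_false, Fin.val_last] <;>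
        split_ifs <;> omega

/-- After deleting one edge between the two big sides the graph is `n`-colourable. -/
lemma big_delete_colorable (hn : 3 ≤ n) {Λ : SimpleGraph L} {α β : L} (i₀ j₀ : Fin N) :
    ((big n N Λ α β).deleteEdges
      {s(Sum.inr (.a false i₀), Sum.inr (.a true j₀))}).Colorable n := by
  classical
  let k : Bool → Fin N := fun s => if s then j₀ else i₀
  let C : (Fin n × L) ⊕ GV N → Fin n := fun u =>
    match u with
    | Sum.inl p => p.1
    | Sum.inr x => ⟨gcol k x, lt_of_lt_of_le (gcol_lt k x) hn⟩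
  have key : ∀ u v, Rel n N Λ α β u v →
      s(u, v) ≠ s(Sum.inr (.a false i₀), Sum.inr (.a true j₀)) → C u ≠ C v := by
    intro u v huv hne
    cases huv with
    | prod t t' f f' ht _ => exact ht
    | ab i j =>
        intro h
        have h1 : gcol k (.a false i) = gcol k (.a true j) := congrArg Fin.val h
        simp only [gcol, k, lo, Bool.false_eq_true, if_false, if_true] at h1
        apply hne
        split_ifs at h1 with h2 h3 h3
        · rw [h2, h3]
        all_goals omega
    | az s i =>
        intro h
        have h1 : gcol k (.a s i) = gcol k (.z s i) := congrArg Fin.val h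
        simp only [gcol] at h1
        have e : i = k s ↔ (i : ℕ) = (k s : ℕ) := by rw [Fin.ext_iff]
        simp only [e] at h1
        cases s <;> simp only [lo, Bool.not_true, Bool.not_false] at h1 <;>
          split_ifs at h1 <;> omega
    | yz s i =>
        intro h
        have h1 : gcol k (.y s i.castSucc) = gcol k (.z s i) := congrArg Fin.val h
        simp only [gcol] at h1
        have e : i = k s ↔ (i : ℕ) = (k s : ℕ) := by rw [Fin.ext_iff]
        simp only [e, Fin.val_castSucc] at h1
        cases s <;> simp only [lo, Bool.not_true, Bool.not_false] at h1 <;>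
          split_ifs at h1 <;> omega
    | zy s i =>
        intro h
        have h1 : gcol k (.y s i.succ) = gcol k (.z s i) := congrArg Fin.val h
        simp only [gcol] at h1
        have e : i = k s ↔ (i : ℕ) = (k s : ℕ) := by rw [Fin.ext_iff]
        simp only [e, Fin.val_succ] at h1
        cases s <;> simp only [lo, Bool.not_true, Bool.not_false] at h1 <;>
          split_ifs at h1 <;> omega
    | hub x t hx =>
        intro h
        have h1 : gcol k x = (t : ℕ) := congrArg Fin.val h
        exact gcol_forb k x _ hx h1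
  refine ⟨SimpleGraph.Coloring.mk C ?_⟩
  intro u v huv
  rw [SimpleGraph.deleteEdges_adj, big, SimpleGraph.fromRel_adj] at huv
  obtain ⟨⟨_, h1⟩, h2⟩ := huv
  rw [Set.mem_singleton_iff] at h2
  rcases h1 with h1 | h1
  · exact key _ _ h1 h2
  · exact (key _ _ h1 (by rw [Sym2.eq_swap]; exact h2)).symm

end CritDens
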