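import Pool.Agent.CritDens.Shift
import Pool.Agent.CritDens.Gadget

/-! # Critical subgraphs and assembly -/

set_option autoImplicit false

namespace CritDens

variable {V : Type}

/-- A graph that becomes `n`-colourable after deleting an edge is `(n+1)`-colourable. -/
lemma colorable_succ_of_delete {W : Type} {H : SimpleGraph W} {n : ℕ} {u v : W}
    (h : (H.deleteEdges {s(u, v)}).Colorable n) : H.Colorable (n + 1) := by
  classical
  obtain ⟨C⟩ := h
  refine ⟨SimpleGraph.Coloring.mk (fun x => if x = u then Fin.last n else (C x).castSucc) ?_⟩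
  intro x y hxy heq
  by_cases hx : x = u
  · by_cases hy : y = u
    · subst hx; subst hy; exact H.loopless.irrefl _ hxy
    · simp only [hx, hy, if_true, if_false] at heq
      exact (Fin.castSucc_ne_last _) heq.symm
  · by_cases hy : y = u
    · simp only [hx, hy, if_true, if_false] at heq
      exact (Fin.castSucc_ne_last _) heq
    · simp only [hx, hy, if_false] at heq
      have h1 : C x = C y := Fin.castSucc_injective _ heq
      apply C.valid _ h1
      rw [SimpleGraph.deleteEdges_adj]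
      refine ⟨hxy, ?_⟩
      rw [Set.mem_singleton_iff, Sym2.eq_iff]
      rintro (⟨h2, _⟩ | ⟨_, h2⟩)
      · exact hx h2
      · exact hy h2

/-- Extraction of a critical subgraph containing prescribed critical edges. -/
lemma exists_critical [Finite V] (G : SimpleGraph V) {n N : ℕ} (hn : 1 ≤ n)
    (hG : ¬ G.Colorable n) (a b : Fin N → V) (ha : Function.Injective a)
    (hb : Function.Injective b) (hab : ∀ i j, a i ≠ b j)
    (hcrit : ∀ i j, (G.deleteEdges {s(a i, b j)}).Colorable n) :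
    ∃ (m : ℕ) (H : SimpleGraph (Fin m)) (_ : H →g G), m ≤ Nat.card V ∧
      H.chromaticNumber = ((n + 1 : ℕ) : ℕ∞) ∧
      (∀ e ∈ H.edgeSet, (H.deleteEdges {e}).Colorable n) ∧
      (∀ v, ∃ w, H.Adj v w) ∧ N * N ≤ Nat.card H.edgeSet := by
  classical
  obtain ⟨G', ⟨hle, hnc⟩, hmin⟩ := exists_minimal_of_wellFoundedLT
    (fun G' : SimpleGraph V => G' ≤ G ∧ ¬ G'.Colorable n) ⟨G, le_rfl, hG⟩
  have hdel : ∀ e ∈ G'.edgeSet, (G'.deleteEdges {e}).Colorable n := by
    intro e he
    by_contra hne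
    have h1 := hmin (y := G'.deleteEdges {e})
      ⟨(SimpleGraph.deleteEdges_le _).trans hle, hne⟩ (SimpleGraph.deleteEdges_le _)
    induction e using Sym2.ind with
    | _ u v =>
      have h2 : (G'.deleteEdges {s(u, v)}).Adj u v := h1 he
      rw [SimpleGraph.deleteEdges_adj] at h2
      exact h2.2 rfl
  have hE : ∀ i j, G'.Adj (a i) (b j) := by
    intro i j
    by_contra hne
    apply hnc
    refine (hcrit i j).mono_left ?_
    intro x y hxy
    rw [SimpleGraph.deleteEdges_adj]
    refine ⟨hle hxy, ?_⟩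
    rw [Set.mem_singleton_iff, Sym2.eq_iff]
    rintro (⟨rfl, rfl⟩ | ⟨rfl, rfl⟩)
    · exact hne hxy
    · exact hne hxy.symm
  let S : Set V := {v | ∃ w, G'.Adj v w}
  let m := Nat.card S
  let g : Fin m ≃ S := (Finite.equivFin S).symm
  let f : Fin m → V := fun i => (g i : V)
  have hf : Function.Injective f := Subtype.val_injective.comp g.injective
  let H : SimpleGraph (Fin m) := G'.comap f
  have hHadj : ∀ i j, H.Adj i j ↔ G'.Adj (f i) (f j) := fun i j => Iff.rfl
  have hfg : ∀ (v : V) (hv : v ∈ S), f (g.symm ⟨v, hv⟩) = v := by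
    intro v hv
    simp [f]
  have hHn : ¬ H.Colorable n := by
    rintro ⟨C⟩
    apply hnc
    refine ⟨SimpleGraph.Coloring.mk
      (fun v => if hv : v ∈ S then C (g.symm ⟨v, hv⟩) else ⟨0, hn⟩) ?_⟩
    intro u v huv heq
    have hu : u ∈ S := ⟨v, huv⟩
    have hv : v ∈ S := ⟨u, huv.symm⟩
    rw [dif_pos hu, dif_pos hv] at heq
    apply C.valid _ heq
    rw [hHadj, hfg, hfg]
    exact huv
  have hHdel : ∀ e ∈ H.edgeSet, (H.deleteEdges {e}).Colorable n := by
    intro e he
    induction e using Sym2.ind with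
    | _ i j =>
      have h1 : s(f i, f j) ∈ G'.edgeSet := he
      refine SimpleGraph.Colorable.of_hom (G' := G'.deleteEdges {s(f i, f j)})
        ⟨f, ?_⟩ (hdel _ h1)
      intro x y hxy
      rw [SimpleGraph.deleteEdges_adj] at hxy ⊢
      refine ⟨hxy.1, ?_⟩
      intro h2
      apply hxy.2
      rw [Set.mem_singleton_iff, Sym2.eq_iff] at h2 ⊢
      rcases h2 with ⟨h3, h4⟩ | ⟨h3, h4⟩
      · exact Or.inl ⟨hf h3, hf h4⟩
      · exact Or.inr ⟨hf h3, hf h4⟩
  have hHn1 : H.Colorable (n + 1) := by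
    by_cases hne : ∃ i j, H.Adj i j
    · obtain ⟨i, j, hij⟩ := hne
      exact colorable_succ_of_delete (hHdel s(i, j) hij)
    · exfalso
      apply hHn
      push Not at hne
      exact ⟨SimpleGraph.Coloring.mk (fun _ => ⟨0, hn⟩) (fun {x y} h => absurd h (hne x y))⟩
  refine ⟨m, H, ⟨f, fun {x y} h => hle h⟩, ?_, ?_, hHdel, ?_, ?_⟩
  · have := Nat.card_le_card_of_injective f hf
    rwa [Nat.card_fin] at this
  · have := (SimpleGraph.chromaticNumber_eq_iff_colorable_not_colorable (G := H) (n := n)).2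
      ⟨hHn1, hHn⟩
    rw [this]
    push_cast
    rfl
  · intro i
    obtain ⟨w, hw⟩ := (g i).2
    have hwS : w ∈ S := ⟨_, hw.symm⟩
    refine ⟨g.symm ⟨w, hwS⟩, ?_⟩
    rw [hHadj, hfg]
    exact hw
  · have haS : ∀ i, a i ∈ S := fun i => ⟨b i, hE i i⟩
    have hbS : ∀ i, b i ∈ S := fun i => ⟨a i, (hE i i).symm⟩
    let F : Fin N × Fin N → H.edgeSet := fun p =>
      ⟨s(g.symm ⟨a p.1, haS p.1⟩, g.symm ⟨b p.2, hbS p.2⟩), by
        rw [SimpleGraph.mem_edgeSet, hHadj, hfg, hfg]; exact hE _ _⟩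
    have hF : Function.Injective F := by
      rintro ⟨i, j⟩ ⟨i', j'⟩ h
      have h1 : s(g.symm ⟨a i, haS i⟩, g.symm ⟨b j, hbS j⟩) =
        s(g.symm ⟨a i', haS i'⟩, g.symm ⟨b j', hbS j'⟩) := congrArg Subtype.val h
      have h2 : s(a i, b j) = s(a i', b j') := by
        have := congrArg (Sym2.map f) h1
        simpa only [Sym2.map_mk, hfg] using this
      rw [Sym2.eq_iff] at h2
      rcases h2 with ⟨h3, h4⟩ | ⟨h3, _⟩
      · rw [ha h3, hb h4]
      · exact absurd h3 (hab i j')
    have := Nat.card_le_card_of_injective F hF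
    simpa using this

/-- The main theorem: every constant `c < 1/36` works for all `ℓ` and all `k`. -/
theorem main (ℓ : ℕ) (k : ℕ) (hk : 4 ≤ k) (c : ℝ) (hc : c < 1 / 36) (N : ℕ) : ∃ n : ℕ, N ≤ n ∧
      ∃ G : SimpleGraph (Fin n),
        G.chromaticNumber = (k : ℕ∞) ∧
        (∀ e ∈ G.edgeSet, (G.deleteEdges {e}).Colorable (k - 1)) ∧
        (∀ v : Fin n, ∃ w : Fin n, G.Adj v w) ∧
        (∀ (v : Fin n) (p : G.Walk v v), Odd p.length → ℓ ≤ p.length) ∧
        c * (n : ℝ) ^ 2 ≤ (Nat.card G.edgeSet : ℝ) := by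
  obtain ⟨n, rfl⟩ : ∃ n, k = n + 1 := ⟨k - 1, by omega⟩
  have hn3 : 3 ≤ n := by omega
  obtain ⟨L, hL, Λ, hconn, hχ, hodd⟩ := exists_graph n ℓ
  have hedge : ∃ α β, Λ.Adj α β := by
    by_contra hne
    push Not at hne
    apply hχ
    exact ⟨SimpleGraph.Coloring.mk (fun _ => ⟨0, by omega⟩) (fun {x y} h => absurd h (hne x y))⟩
  obtain ⟨α, β, hαβ⟩ := hedge
  set C0 := Nat.card (Fin n × L) with hC0
  obtain ⟨K, hK⟩ : ∃ K : ℕ, ∀ M : ℕ, K ≤ M → ∀ x : ℝ, 0 ≤ x → x ≤ 6 * M + (C0 + 2) →
      c * x ^ 2 ≤ (M : ℝ) * M := by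
    obtain ⟨K, hK⟩ := exists_nat_gt ((C0 + 2 : ℝ) / (1 / 36 - c))
    refine ⟨K, fun M hM x hx0 hx => ?_⟩
    have hd : 0 < 1 / 36 - c := by linarith
    have hMK : (K : ℝ) ≤ M := by exact_mod_cast hM
    have hC : (C0 + 2 : ℝ) < (1 / 36 - c) * M := by
      have := (div_lt_iff₀ hd).1 (hK.trans_le hMK)
      linarith
    have hM0 : (0 : ℝ) ≤ M := Nat.cast_nonneg _
    rcases le_or_gt c 0 with hc0 | hc0
    · have h1 : 0 ≤ (M : ℝ) * M := mul_nonneg hM0 hM0
      have h2 : c * x ^ 2 ≤ 0 := mul_nonpos_of_nonpos_of_nonneg hc0 (sq_nonneg x)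
      linarith
    · have hx1 : x ≤ (6 + (1 / 36 - c)) * M := by nlinarith
      have hx2 : x ^ 2 ≤ ((6 + (1 / 36 - c)) * M) ^ 2 := by
        apply pow_le_pow_left₀ hx0 hx1
      have hk : c * (6 + (1 / 36 - c)) ^ 2 ≤ 1 := by
        set d := 1 / 36 - c with hdd
        have hcd : c = 1 / 36 - d := by rw [hdd]; ring
        have hd1 : d < 1 / 36 := by linarith
        rw [hcd]
        nlinarith [mul_pos hd hd, mul_pos (mul_pos hd hd) hd]
      calc c * x ^ 2 ≤ c * ((6 + (1 / 36 - c)) * M) ^ 2 := by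
            exact mul_le_mul_of_nonneg_left hx2 hc0.le
        _ = (c * (6 + (1 / 36 - c)) ^ 2) * (M * M) := by ring
        _ ≤ 1 * (M * M) := by
            apply mul_le_mul_of_nonneg_right hk (mul_nonneg hM0 hM0)
        _ = M * M := one_mul _
  set M := max N (max K 1) with hM
  have : Finite (GV M) := Finite.of_equiv _ (gvEquiv M).symm
  have hcardGV : Nat.card (GV M) = 6 * M + 2 := by
    rw [Nat.card_congr (gvEquiv M)]
    simp only [Nat.card_eq_fintype_card, Fintype.card_prod, Fintype.card_bool, Fintype.card_sum,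
      Fintype.card_fin]
    ring
  have hcard : Nat.card ((Fin n × L) ⊕ GV M) = C0 + (6 * M + 2) := by
    rw [Nat.card_sum, hcardGV]
  obtain ⟨m, H, hom, hm, hchr, hcrit, hiso, hE⟩ := exists_critical (big n M Λ α β) (n := n) (N := M)
    (by omega) (big_not_colorable hconn hχ α β)
    (fun i => Sum.inr (.a false i)) (fun j => Sum.inr (.a true j))
    (by
      intro i j h
      have h1 := Sum.inr_injective h
      injection h1)
    (by
      intro i j h
      have h1 := Sum.inr_injective h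
      injection h1)
    (by
      intro i j h
      have h1 := Sum.inr_injective h
      injection h1 with h2 h3
      exact Bool.noConfusion h2)
    (fun i j => big_delete_colorable hn3 i j)
  have hMm : M ≤ m := by
    by_contra hlt
    push Not at hlt
    have h1 : Nat.card H.edgeSet ≤ Nat.card (Sym2 (Fin m)) :=
      Nat.card_le_card_of_injective _ Subtype.val_injective
    have h2 : Nat.card (Sym2 (Fin m)) ≤ m * m := by
      have := Nat.card_le_card_of_surjective _ (Sym2.mk_surjective (α := Fin m))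
      rwa [Nat.card_prod, Nat.card_fin] at this
    have h4 : m * m < M * M := Nat.mul_lt_mul'' hlt hlt
    omega
  refine ⟨m, (le_max_left _ _).trans hMm, H, ?_, ?_, hiso, ?_, ?_⟩
  · exact hchr
  · intro e he
    have := hcrit e he
    simpa using this
  · intro v p hp
    have h0 : ((p.map hom).map (projHom n M hαβ)).length = p.length := by
      rw [SimpleGraph.Walk.length_map, SimpleGraph.Walk.length_map]
    have h1 := hodd _ ((p.map hom).map (projHom n M hαβ)) (by rw [h0]; exact hp)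
    rwa [h0] at h1
  · have h1 : (m : ℝ) ≤ 6 * M + (C0 + 2) := by
      rw [hcard] at hm
      have h2 : (m : ℝ) ≤ ((C0 + (6 * M + 2) : ℕ) : ℝ) := by exact_mod_cast hm
      push_cast at h2
      linarith
    have h3 : ((M * M : ℕ) : ℝ) ≤ (Nat.card H.edgeSet : ℝ) := by exact_mod_cast hE
    push_cast at h3
    have h4 : (0 : ℝ) ≤ m := Nat.cast_nonneg _
    have h5 := hK M ((le_max_left _ _).trans (le_max_right _ _)) m h4 h1
    linarith

end CritDens
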