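import Pool.Agent.CritDens.Join

/-! # Density bounds -/

set_option autoImplicit false

namespace CritDens

/-- A family of pairs of gadgets gives a density bound, for every odd girth. -/
theorem density {n : ℕ} (hn : 1 ≤ n) (ℓ D E e : ℕ) (he : 1 ≤ e)
    (fam : ∀ M : ℕ, 1 ≤ M → ∃ (ι κ : Type) (t : ℕ) (P Q : ℕ → Prop) (A : Side n ι t P)
      (B : Side n κ t Q), Nonempty ι ∧ Nonempty κ ∧ (∀ s, P s → Q s → False) ∧ ¬ P t ∧ ¬ Q t ∧
      Nat.card A.V + Nat.card B.V ≤ D * M ^ 2 + E * M ∧ e * M ^ 4 ≤ Nat.card ι * Nat.card κ)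
    (c : ℝ) (hc : c * (D : ℝ) ^ 2 < e) (N : ℕ) :
    ∃ m : ℕ, N ≤ m ∧ ∃ H : SimpleGraph (Fin m),
      H.chromaticNumber = ((n + 1 : ℕ) : ℕ∞) ∧
      (∀ e ∈ H.edgeSet, (H.deleteEdges {e}).Colorable n) ∧
      (∀ v, ∃ w, H.Adj v w) ∧
      (∀ (v : Fin m) (p : H.Walk v v), Odd p.length → ℓ ≤ p.length) ∧
      c * (m : ℝ) ^ 2 < (Nat.card H.edgeSet : ℝ) := by
  obtain ⟨L, hL, Λ, hconn, hχ, hodd⟩ := exists_graph n ℓ
  have hedge : ∃ α β, Λ.Adj α β := by
    by_contra hne
    push Not at hne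
    apply hχ
    exact ⟨SimpleGraph.Coloring.mk (fun _ => ⟨0, by omega⟩) (fun {x y} h => absurd h (hne x y))⟩
  obtain ⟨α, β, hαβ⟩ := hedge
  set C0 := Nat.card (Fin n × L) with hC0
  -- the slack
  obtain ⟨δ, hδ, hcδ⟩ : ∃ δ : ℝ, 0 < δ ∧ (0 < c → c * ((D : ℝ) + δ) ^ 2 < e) := by
    rcases le_or_gt c 0 with hc0 | hc0
    · exact ⟨1, one_pos, fun h => absurd h (not_lt.2 hc0)⟩
    · have hs : 0 < (e : ℝ) - c * D ^ 2 := by linarith
      have hden : 0 < c * (2 * D + 1) + 1 := by positivity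
      refine ⟨min 1 (((e : ℝ) - c * D ^ 2) / (c * (2 * D + 1) + 1)), lt_min one_pos (by positivity),
        fun _ => ?_⟩
      set δ := min 1 (((e : ℝ) - c * D ^ 2) / (c * (2 * D + 1) + 1)) with hδ
      have h1 : δ ≤ 1 := min_le_left _ _
      have h0 : 0 < δ := lt_min one_pos (by positivity)
      have h2 : δ * (c * (2 * D + 1) + 1) ≤ (e : ℝ) - c * D ^ 2 := by
        have := min_le_right 1 (((e : ℝ) - c * D ^ 2) / (c * (2 * D + 1) + 1))
        rwa [← hδ, le_div_iff₀ hden] at this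
      have h3 : c * ((D : ℝ) + δ) ^ 2 = c * D ^ 2 + c * δ * (2 * D + δ) := by ring
      have h4 : c * δ * (2 * D + δ) ≤ c * δ * (2 * D + 1) := by
        apply mul_le_mul_of_nonneg_left _ (by positivity)
        linarith
      rw [h3]
      nlinarith
  obtain ⟨K, hK⟩ := exists_nat_gt (((E : ℝ) + C0) / δ)
  set M := max N (max K 1) with hM
  have hM1 : 1 ≤ M := (le_max_right _ _).trans (le_max_right _ _)
  have hMN : N ≤ M := le_max_left _ _
  have hMK : K ≤ M := (le_max_left _ _).trans (le_max_right _ _)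
  obtain ⟨ι, κ, t, P, Q, A, B, hι, hκ, hPQ, hPt, hQt, hcard, hE⟩ := fam M hM1
  obtain ⟨m, H, hom, hm, hchr, hcrit, hiso, hEdge⟩ :=
    critical_of_sides hn A B hι hκ hPQ hPt hQt hconn hχ hαβ
  have hMr : (1 : ℝ) ≤ M := by exact_mod_cast hM1
  have hEc : (e : ℝ) * (M : ℝ) ^ 4 ≤ (Nat.card H.edgeSet : ℝ) := by
    exact_mod_cast hE.trans hEdge
  have hmr : (m : ℝ) ≤ ((D : ℝ) + δ) * (M : ℝ) ^ 2 := by
    have h1 : (m : ℝ) ≤ C0 + (D * (M : ℝ) ^ 2 + E * M) := by
      exact_mod_cast hm.trans (Nat.add_le_add_left hcard _)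
    have h2 : (E : ℝ) + C0 ≤ δ * M := by
      have := (div_lt_iff₀ hδ).1 hK
      have h3 : (K : ℝ) ≤ M := by exact_mod_cast hMK
      nlinarith
    have h4 : (C0 : ℝ) + E * M ≤ ((E : ℝ) + C0) * M := by
      have : (0 : ℝ) ≤ C0 := Nat.cast_nonneg _
      nlinarith
    nlinarith
  have hNm : M ≤ m := by
    by_contra hlt
    push Not at hlt
    have h1 : Nat.card H.edgeSet ≤ Nat.card (Sym2 (Fin m)) :=
      Nat.card_le_card_of_injective _ Subtype.val_injective
    have h2 : Nat.card (Sym2 (Fin m)) ≤ m * m := by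
      have := Nat.card_le_card_of_surjective _ (Sym2.mk_surjective (α := Fin m))
      rwa [Nat.card_prod, Nat.card_fin] at this
    have h4 : m * m < M * M := Nat.mul_lt_mul'' hlt hlt
    have h5 : M * M ≤ e * M ^ 4 := by
      calc M * M = 1 * (M * M * 1) := by ring
        _ ≤ e * (M * M * (M * M)) := by
          apply Nat.mul_le_mul he
          apply Nat.mul_le_mul_left
          exact Nat.mul_le_mul hM1 hM1
        _ = e * M ^ 4 := by ring
    omega
  refine ⟨m, hMN.trans hNm, H, hchr, hcrit, hiso, ?_, ?_⟩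
  · intro v p hp
    have h0 : (p.map hom).length = p.length := SimpleGraph.Walk.length_map _ _
    have h1 := hodd _ (p.map hom) (by rw [h0]; exact hp)
    rwa [h0] at h1
  · refine lt_of_lt_of_le ?_ hEc
    have hM4 : 0 < (M : ℝ) ^ 4 := by positivity
    rcases le_or_gt c 0 with hc0 | hc0
    · have h1 : c * (m : ℝ) ^ 2 ≤ 0 := mul_nonpos_of_nonpos_of_nonneg hc0 (sq_nonneg _)
      have h2 : 0 < (e : ℝ) * (M : ℝ) ^ 4 := by
        have : (0 : ℝ) < e := by exact_mod_cast he
        positivity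
      linarith
    · calc c * (m : ℝ) ^ 2 ≤ c * (((D : ℝ) + δ) * (M : ℝ) ^ 2) ^ 2 := by
            apply mul_le_mul_of_nonneg_left _ hc0.le
            exact pow_le_pow_left₀ (Nat.cast_nonneg _) hmr 2
        _ = (c * ((D : ℝ) + δ) ^ 2) * (M : ℝ) ^ 4 := by ring
        _ < e * (M : ℝ) ^ 4 := mul_lt_mul_of_pos_right (hcδ hc0) hM4

lemma card_orSide (n r d t u : ℕ) (hd : d < n) (ht : t < n) (hu : u < n) (hdt : d ≠ t)
    (hdu : d ≠ u) (htu : t ≠ u) : Nat.card (orSide n r d t u hd ht hu hdt hdu htu).V = 3 * r + 1 :=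
  orCard r

section
variable {n : ℕ} {ι κ : Type} {p q t : ℕ}

lemma card_prod₁ (hp : p < n) (hq : q < n) (ht : t < n) (hpq : p ≠ q)
    (hpt : p ≠ t) (hqt : q ≠ t) (X : Side n ι p (fun s => s = t)) (Y : Side n κ q (fun s => s = t))
    (hι : Finite ι) (hκ : Finite κ) :
    Nat.card (prod₁ hp hq ht hpq hpt hqt X Y hι hκ).V =
      Nat.card ι * Nat.card κ + (Nat.card X.V + Nat.card Y.V) := by
  have := X.fin
  have := Y.fin
  show Nat.card ((ι × κ) ⊕ (X.V ⊕ Y.V)) = _
  rw [Nat.card_sum, Nat.card_sum, Nat.card_prod]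

lemma card_prod₂ (hp : p < n) (hq : q < n) (ht : t < n) (hpq : p ≠ q)
    (hpt : p ≠ t) (hqt : q ≠ t) (X : Side n ι q (fun s => s = p)) (Y : Side n κ t (fun s => s = p))
    (hι : Finite ι) (hκ : Finite κ) :
    Nat.card (prod₂ hp hq ht hpq hpt hqt X Y hι hκ).V =
      (Nat.card ι * Nat.card κ + Nat.card ι * Nat.card κ) + (Nat.card X.V + Nat.card Y.V) := by
  have := X.fin
  have := Y.fin
  show Nat.card (((ι × κ) ⊕ (ι × κ)) ⊕ (X.V ⊕ Y.V)) = _
  rw [Nat.card_sum, Nat.card_sum, Nat.card_sum, Nat.card_prod]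

end

/-- `k ≥ 4`: every constant `c < 1/16` works, for all odd girths. -/
theorem density_four {n : ℕ} (hn : 3 ≤ n) (ℓ : ℕ) (c : ℝ) (hc : c < 1 / 16) (N : ℕ) :
    ∃ m : ℕ, N ≤ m ∧ ∃ H : SimpleGraph (Fin m),
      H.chromaticNumber = ((n + 1 : ℕ) : ℕ∞) ∧
      (∀ e ∈ H.edgeSet, (H.deleteEdges {e}).Colorable n) ∧
      (∀ v, ∃ w, H.Adj v w) ∧
      (∀ (v : Fin m) (p : H.Walk v v), Odd p.length → ℓ ≤ p.length) ∧
      c * (m : ℝ) ^ 2 < (Nat.card H.edgeSet : ℝ) := by
  refine density (by omega) ℓ 4 16 1 le_rfl ?_ c (by norm_num; linarith) N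
  intro M hM
  have hF : Finite (Fin M) := inferInstance
  have hFn : Nonempty (Fin M) := ⟨⟨0, hM⟩⟩
  refine ⟨Fin M × Fin M, Fin M × Fin M, 2, fun s => s = 0, fun s => s = 1,
    prod₂ (p := 0) (q := 1) (t := 2) (by omega) (by omega) (by omega) (by omega) (by omega)
      (by omega)
      (orSide n M 0 1 2 (by omega) (by omega) (by omega) (by omega) (by omega) (by omega))
      (orSide n M 0 2 1 (by omega) (by omega) (by omega) (by omega) (by omega) (by omega)) hF hF,
    prod₂ (p := 1) (q := 0) (t := 2) (by omega) (by omega) (by omega) (by omega) (by omega)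
      (by omega)
      (orSide n M 1 0 2 (by omega) (by omega) (by omega) (by omega) (by omega) (by omega))
      (orSide n M 1 2 0 (by omega) (by omega) (by omega) (by omega) (by omega) (by omega)) hF hF,
    inferInstance, inferInstance, by intro s h1 h2; omega, by omega, by omega, ?_, ?_⟩
  · rw [card_prod₂, card_prod₂, card_orSide, card_orSide, card_orSide, card_orSide]
    simp only [Nat.card_eq_fintype_card, Fintype.card_fin]
    nlinarith
  · simp only [Nat.card_eq_fintype_card, Fintype.card_fin, Fintype.card_prod]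
    apply le_of_eq; ring

/-- `k ≥ 5`: every constant `c < 1/8` works, for all odd girths. -/
theorem density_five {n : ℕ} (hn : 4 ≤ n) (ℓ : ℕ) (c : ℝ) (hc : c < 1 / 8) (N : ℕ) :
    ∃ m : ℕ, N ≤ m ∧ ∃ H : SimpleGraph (Fin m),
      H.chromaticNumber = ((n + 1 : ℕ) : ℕ∞) ∧
      (∀ e ∈ H.edgeSet, (H.deleteEdges {e}).Colorable n) ∧
      (∀ v, ∃ w, H.Adj v w) ∧
      (∀ (v : Fin m) (p : H.Walk v v), Odd p.length → ℓ ≤ p.length) ∧
      c * (m : ℝ) ^ 2 < (Nat.card H.edgeSet : ℝ) := by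
  refine density (by omega) ℓ 4 19 2 (by omega) ?_ c (by norm_num; linarith) N
  intro M hM
  have hF : Finite (Fin M) := inferInstance
  have hF2 : Finite (Fin (2 * M)) := inferInstance
  have hFn : Nonempty (Fin M) := ⟨⟨0, hM⟩⟩
  have hFn2 : Nonempty (Fin (2 * M)) := ⟨⟨0, by omega⟩⟩
  refine ⟨Fin M × Fin (2 * M), Fin M × Fin M, 2, fun s => s = 0 ∨ s = 1, fun s => s = 3,
    prod₁ (p := 0) (q := 1) (t := 2) (by omega) (by omega) (by omega) (by omega) (by omega)
      (by omega)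
      (orSide n M 2 0 1 (by omega) (by omega) (by omega) (by omega) (by omega) (by omega))
      (orSide n (2 * M) 2 1 0 (by omega) (by omega) (by omega) (by omega) (by omega) (by omega))
      hF hF2,
    prod₂ (p := 3) (q := 0) (t := 2) (by omega) (by omega) (by omega) (by omega) (by omega)
      (by omega)
      (orSide n M 3 0 2 (by omega) (by omega) (by omega) (by omega) (by omega) (by omega))
      (orSide n M 3 2 0 (by omega) (by omega) (by omega) (by omega) (by omega) (by omega)) hF hF,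
    inferInstance, inferInstance, by intro s h1 h2; omega, by omega, by omega, ?_, ?_⟩
  · rw [card_prod₁, card_prod₂, card_orSide, card_orSide, card_orSide, card_orSide]
    simp only [Nat.card_eq_fintype_card, Fintype.card_fin]
    nlinarith
  · simp only [Nat.card_eq_fintype_card, Fintype.card_fin, Fintype.card_prod]
    apply le_of_eq; ring

/-- `k ≥ 6`: every constant `c < 1/4` works, for all odd girths. -/
theorem density_six {n : ℕ} (hn : 5 ≤ n) (ℓ : ℕ) (c : ℝ) (hc : c < 1 / 4) (N : ℕ) :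
    ∃ m : ℕ, N ≤ m ∧ ∃ H : SimpleGraph (Fin m),
      H.chromaticNumber = ((n + 1 : ℕ) : ℕ∞) ∧
      (∀ e ∈ H.edgeSet, (H.deleteEdges {e}).Colorable n) ∧
      (∀ v, ∃ w, H.Adj v w) ∧
      (∀ (v : Fin m) (p : H.Walk v v), Odd p.length → ℓ ≤ p.length) ∧
      c * (m : ℝ) ^ 2 < (Nat.card H.edgeSet : ℝ) := by
  refine density (by omega) ℓ 2 16 1 le_rfl ?_ c (by norm_num; linarith) N
  intro M hM
  have hF : Finite (Fin M) := inferInstance
  have hFn : Nonempty (Fin M) := ⟨⟨0, hM⟩⟩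
  refine ⟨Fin M × Fin M, Fin M × Fin M, 2, fun s => s = 0 ∨ s = 1, fun s => s = 3 ∨ s = 4,
    prod₁ (p := 0) (q := 1) (t := 2) (by omega) (by omega) (by omega) (by omega) (by omega)
      (by omega)
      (orSide n M 2 0 1 (by omega) (by omega) (by omega) (by omega) (by omega) (by omega))
      (orSide n M 2 1 0 (by omega) (by omega) (by omega) (by omega) (by omega) (by omega)) hF hF,
    prod₁ (p := 3) (q := 4) (t := 2) (by omega) (by omega) (by omega) (by omega) (by omega)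
      (by omega)
      (orSide n M 2 3 4 (by omega) (by omega) (by omega) (by omega) (by omega) (by omega))
      (orSide n M 2 4 3 (by omega) (by omega) (by omega) (by omega) (by omega) (by omega)) hF hF,
    inferInstance, inferInstance, by intro s h1 h2; omega, by omega, by omega, ?_, ?_⟩
  · rw [card_prod₁, card_prod₁, card_orSide, card_orSide, card_orSide, card_orSide]
    simp only [Nat.card_eq_fintype_card, Fintype.card_fin]
    nlinarith
  · simp only [Nat.card_eq_fintype_card, Fintype.card_fin, Fintype.card_prod]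
    apply le_of_eq; ring

end CritDens
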