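import Pool.Agent.CritDens.Sides

/-! # Joining two gadgets along a palette -/

set_option autoImplicit false

namespace CritDens

section
variable {n : ℕ} {ι κ : Type} {t : ℕ} {P Q : ℕ → Prop}

/-- The generating relation of the joined graph. -/
inductive SRel (A : Side n ι t P) (B : Side n κ t Q) {L : Type} (Λ : SimpleGraph L) (α β : L) :
    (Fin n × L) ⊕ (A.V ⊕ B.V) → (Fin n × L) ⊕ (A.V ⊕ B.V) → Prop
  | prod (s s' : Fin n) (f f' : L) : s ≠ s' → Λ.Adj f f' →
      SRel A B Λ α β (Sum.inl (s, f)) (Sum.inl (s', f'))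
  | ab (i : ι) (j : κ) :
      SRel A B Λ α β (Sum.inr (Sum.inl (A.a i))) (Sum.inr (Sum.inr (B.a j)))
  | eA (u v : A.V) : A.E u v → SRel A B Λ α β (Sum.inr (Sum.inl u)) (Sum.inr (Sum.inl v))
  | eB (u v : B.V) : B.E u v → SRel A B Λ α β (Sum.inr (Sum.inr u)) (Sum.inr (Sum.inr v))
  | hA (v : A.V) (s : Fin n) : A.F v s →
      SRel A B Λ α β (Sum.inr (Sum.inl v)) (Sum.inl (s, edgeEnd α β (!A.pos v)))
  | hB (v : B.V) (s : Fin n) : B.F v s →
      SRel A B Λ α β (Sum.inr (Sum.inr v)) (Sum.inl (s, edgeEnd α β (B.pos v)))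

variable (A : Side n ι t P) (B : Side n κ t Q) {L : Type} {Λ : SimpleGraph L} {α β : L}

/-- The joined graph. -/
def joined (Λ : SimpleGraph L) (α β : L) : SimpleGraph ((Fin n × L) ⊕ (A.V ⊕ B.V)) :=
  SimpleGraph.fromRel (SRel A B Λ α β)

/-- The projection of the joined graph to `Λ`. -/
def jproj (α β : L) : (Fin n × L) ⊕ (A.V ⊕ B.V) → L
  | Sum.inl p => p.2
  | Sum.inr (Sum.inl v) => edgeEnd α β (A.pos v)
  | Sum.inr (Sum.inr v) => edgeEnd α β (!B.pos v)

/-- The projection is a homomorphism. -/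
def jprojHom (h : Λ.Adj α β) : joined A B Λ α β →g Λ where
  toFun := jproj A B α β
  map_rel' := by
    intro u v huv
    have key : ∀ u v, SRel A B Λ α β u v → Λ.Adj (jproj A B α β u) (jproj A B α β v) := by
      intro u v huv
      cases huv with
      | prod s s' f f' _ h => exact h
      | ab i j =>
          simp only [jproj, A.apos, B.apos]
          exact edgeEnd_adj h _
      | eA u v huv =>
          simp only [jproj, A.hE _ _ huv]
          exact edgeEnd_adj h _
      | eB u v huv =>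
          simp only [jproj, B.hE _ _ huv]
          exact edgeEnd_adj h _
      | hA v s _ => exact edgeEnd_adj h _
      | hB v s _ =>
          simp only [jproj]
          exact (edgeEnd_adj h _).symm
    rw [joined, SimpleGraph.fromRel_adj] at huv
    rcases huv.2 with h1 | h1
    · exact key _ _ h1
    · exact (key _ _ h1).symm

variable {A B}

/-- Adjacency from the generating relation. -/
lemma joined_adj {u v : (Fin n × L) ⊕ (A.V ⊕ B.V)} (huv : SRel A B Λ α β u v) :
    (joined A B Λ α β).Adj u v := by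
  rw [joined, SimpleGraph.fromRel_adj]
  refine ⟨?_, Or.inl huv⟩
  rintro rfl
  cases huv with
  | prod s s' f f' hs _ => exact hs rfl
  | eA u v h => have := A.hE _ _ h; simp at this
  | eB u v h => have := B.hE _ _ h; simp at this

/-- The joined graph is not `n`-colourable. -/
lemma joined_not_colorable (hconn : Λ.Connected) (hχ : ¬ Λ.Colorable n) (α β : L) :
    ¬ (joined A B Λ α β).Colorable n := by
  rintro ⟨C⟩
  obtain ⟨π, hπ, hC⟩ := unique_colouring hconn hχ (fun s f => C (Sum.inl (s, f)))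
    (fun i j f f' hij hff' => C.valid (joined_adj (SRel.prod i j f f' hij hff')))
  have hsurj := Finite.surjective_of_injective hπ
  have hcol : ∀ x : A.V ⊕ B.V, ∃ s : Fin n, C (Sum.inr x) = π s := fun x => by
    obtain ⟨s, hs⟩ := hsurj (C (Sum.inr x))
    exact ⟨s, hs.symm⟩
  choose c hc using hcol
  have hprop : ∀ x y, SRel A B Λ α β (Sum.inr x) (Sum.inr y) → (c x : ℕ) ≠ c y := by
    intro x y hxy h
    apply C.valid (joined_adj hxy)
    rw [hc x, hc y, Fin.ext h]
  have hFA : ∀ v s, A.F v s → (c (Sum.inl v) : ℕ) ≠ s := by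
    rintro v s hs rfl
    have := C.valid (joined_adj (SRel.hA (B := B) (Λ := Λ) (α := α) (β := β) v _ hs))
    apply this
    rw [hc, ← hC]
  have hFB : ∀ v s, B.F v s → (c (Sum.inr v) : ℕ) ≠ s := by
    rintro v s hs rfl
    have := C.valid (joined_adj (SRel.hB (A := A) (Λ := Λ) (α := α) (β := β) v _ hs))
    apply this
    rw [hc, ← hC]
  obtain ⟨i, hi⟩ := A.force (fun v => (c (Sum.inl v) : ℕ)) (fun v => (c _).isLt)
    (fun u v h => hprop _ _ (SRel.eA u v h)) hFA
  obtain ⟨j, hj⟩ := B.force (fun v => (c (Sum.inr v) : ℕ)) (fun v => (c _).isLt)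
    (fun u v h => hprop _ _ (SRel.eB u v h)) hFB
  exact hprop _ _ (SRel.ab i j) (hi.trans hj.symm)

/-- After deleting an edge between the distinguished vertices the graph is `n`-colourable. -/
lemma joined_delete_colorable (hPQ : ∀ s, P s → Q s → False) (hPt : ¬ P t) (hQt : ¬ Q t)
    (i₀ : ι) (j₀ : κ) :
    ((joined A B Λ α β).deleteEdges
      {s(Sum.inr (Sum.inl (A.a i₀)), Sum.inr (Sum.inr (B.a j₀)))}).Colorable n := by
  classical
  obtain ⟨ca, ha1, ha2, ha3, ha4, ha5⟩ := A.crit i₀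
  obtain ⟨cb, hb1, hb2, hb3, hb4, hb5⟩ := B.crit j₀
  let C : (Fin n × L) ⊕ (A.V ⊕ B.V) → Fin n := fun u =>
    match u with
    | Sum.inl p => p.1
    | Sum.inr (Sum.inl v) => ⟨ca v, ha1 v⟩
    | Sum.inr (Sum.inr v) => ⟨cb v, hb1 v⟩
  have key : ∀ u v, SRel A B Λ α β u v →
      s(u, v) ≠ s(Sum.inr (Sum.inl (A.a i₀)), Sum.inr (Sum.inr (B.a j₀))) → C u ≠ C v := by
    intro u v huv hne
    cases huv with
    | prod s s' f f' hs _ => exact hs
    | ab i j =>
        intro h
        have h1 : ca (A.a i) = cb (B.a j) := congrArg Fin.val h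
        by_cases hi : i = i₀
        · by_cases hj : j = j₀
          · subst hi; subst hj; exact hne rfl
          · subst hi
            rw [ha4] at h1
            exact hQt (h1 ▸ hb5 j hj)
        · by_cases hj : j = j₀
          · subst hj
            rw [hb4] at h1
            exact hPt (h1 ▸ ha5 i hi)
          · exact hPQ _ (ha5 i hi) (h1 ▸ hb5 j hj)
    | eA u v h =>
        intro h1
        exact ha2 u v h (congrArg Fin.val h1)
    | eB u v h =>
        intro h1
        exact hb2 u v h (congrArg Fin.val h1)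
    | hA v s h =>
        intro h1
        have h2 : ca v = (s : ℕ) := congrArg Fin.val h1
        exact ha3 v _ h h2
    | hB v s h =>
        intro h1
        have h2 : cb v = (s : ℕ) := congrArg Fin.val h1
        exact hb3 v _ h h2
  refine ⟨SimpleGraph.Coloring.mk C ?_⟩
  intro u v huv
  rw [SimpleGraph.deleteEdges_adj, joined, SimpleGraph.fromRel_adj] at huv
  obtain ⟨⟨_, h1⟩, h2⟩ := huv
  rw [Set.mem_singleton_iff] at h2
  rcases h1 with h1 | h1
  · exact key _ _ h1 h2
  · exact (key _ _ h1 (by rw [Sym2.eq_swap]; exact h2)).symm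

end

/-- Extraction of a critical subgraph containing prescribed critical edges. -/
lemma exists_critical' {V ι κ : Type} [Finite V] (G : SimpleGraph V) {n : ℕ} (hn : 1 ≤ n)
    (hG : ¬ G.Colorable n) (a : ι → V) (b : κ → V) (ha : Function.Injective a)
    (hb : Function.Injective b) (hab : ∀ i j, a i ≠ b j) (hι : Nonempty ι) (hκ : Nonempty κ)
    (hcrit : ∀ i j, (G.deleteEdges {s(a i, b j)}).Colorable n) :
    ∃ (m : ℕ) (H : SimpleGraph (Fin m)) (_ : H →g G), m ≤ Nat.card V ∧
      H.chromaticNumber = ((n + 1 : ℕ) : ℕ∞) ∧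
      (∀ e ∈ H.edgeSet, (H.deleteEdges {e}).Colorable n) ∧
      (∀ v, ∃ w, H.Adj v w) ∧ Nat.card ι * Nat.card κ ≤ Nat.card H.edgeSet := by
  classical
  obtain ⟨G', ⟨hle, hnc⟩, hmin⟩ := exists_minimal_of_wellFoundedLT
    (fun G' : SimpleGraph V => G' ≤ G ∧ ¬ G'.Colorable n) ⟨G, le_rfl, hG⟩
  have hdel : ∀ e ∈ G'.edgeSet, (G'.deleteEdges {e}).Colorable n := by
    intro e he
    by_contra hne
    have h1 := hmin (y := G'.deleteEdges {e})
      ⟨(SimpleGraph.deleteEdges_le _).trans hle, hne⟩ (SimpleGraph.deleteEdges_le _)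
    induction e using Sym2.ind with
    | _ u v =>
      have h2 : (G'.deleteEdges {s(u, v)}).Adj u v := h1 he
      rw [SimpleGraph.deleteEdges_adj] at h2
      exact h2.2 rfl
  have hE : ∀ i j, G'.Adj (a i) (b j) := by
    intro i j
    by_contra hne
    apply hnc
    refine (hcrit i j).mono_left ?_
    intro x y hxy
    rw [SimpleGraph.deleteEdges_adj]
    refine ⟨hle hxy, ?_⟩
    rw [Set.mem_singleton_iff, Sym2.eq_iff]
    rintro (⟨rfl, rfl⟩ | ⟨rfl, rfl⟩)
    · exact hne hxy
    · exact hne hxy.symm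
  let S : Set V := {v | ∃ w, G'.Adj v w}
  let m := Nat.card S
  let g : Fin m ≃ S := (Finite.equivFin S).symm
  let f : Fin m → V := fun i => (g i : V)
  have hf : Function.Injective f := Subtype.val_injective.comp g.injective
  let H : SimpleGraph (Fin m) := G'.comap f
  have hHadj : ∀ i j, H.Adj i j ↔ G'.Adj (f i) (f j) := fun i j => Iff.rfl
  have hfg : ∀ (v : V) (hv : v ∈ S), f (g.symm ⟨v, hv⟩) = v := by
    intro v hv
    simp [f]
  have hHn : ¬ H.Colorable n := by
    rintro ⟨C⟩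
    apply hnc
    refine ⟨SimpleGraph.Coloring.mk
      (fun v => if hv : v ∈ S then C (g.symm ⟨v, hv⟩) else ⟨0, hn⟩) ?_⟩
    intro u v huv heq
    have hu : u ∈ S := ⟨v, huv⟩
    have hv : v ∈ S := ⟨u, huv.symm⟩
    rw [dif_pos hu, dif_pos hv] at heq
    apply C.valid _ heq
    rw [hHadj, hfg, hfg]
    exact huv
  have hHdel : ∀ e ∈ H.edgeSet, (H.deleteEdges {e}).Colorable n := by
    intro e he
    induction e using Sym2.ind with
    | _ i j =>
      have h1 : s(f i, f j) ∈ G'.edgeSet := he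
      refine SimpleGraph.Colorable.of_hom (G' := G'.deleteEdges {s(f i, f j)})
        ⟨f, ?_⟩ (hdel _ h1)
      intro x y hxy
      rw [SimpleGraph.deleteEdges_adj] at hxy ⊢
      refine ⟨hxy.1, ?_⟩
      intro h2
      apply hxy.2
      rw [Set.mem_singleton_iff, Sym2.eq_iff] at h2 ⊢
      rcases h2 with ⟨h3, h4⟩ | ⟨h3, h4⟩
      · exact Or.inl ⟨hf h3, hf h4⟩
      · exact Or.inr ⟨hf h3, hf h4⟩
  have hHn1 : H.Colorable (n + 1) := by
    by_cases hne : ∃ i j, H.Adj i j
    · obtain ⟨i, j, hij⟩ := hne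
      exact colorable_succ_of_delete (hHdel s(i, j) hij)
    · exfalso
      apply hHn
      push Not at hne
      exact ⟨SimpleGraph.Coloring.mk (fun _ => ⟨0, hn⟩) (fun {x y} h => absurd h (hne x y))⟩
  refine ⟨m, H, ⟨f, fun {x y} h => hle h⟩, ?_, ?_, hHdel, ?_, ?_⟩
  · have := Nat.card_le_card_of_injective f hf
    rwa [Nat.card_fin] at this
  · have := (SimpleGraph.chromaticNumber_eq_iff_colorable_not_colorable (G := H) (n := n)).2
      ⟨hHn1, hHn⟩
    rw [this]
    push_cast
    rfl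
  · intro i
    obtain ⟨w, hw⟩ := (g i).2
    have hwS : w ∈ S := ⟨_, hw.symm⟩
    refine ⟨g.symm ⟨w, hwS⟩, ?_⟩
    rw [hHadj, hfg]
    exact hw
  · obtain ⟨i₁⟩ := hι
    obtain ⟨j₁⟩ := hκ
    have haS : ∀ i, a i ∈ S := fun i => ⟨b j₁, hE i j₁⟩
    have hbS : ∀ j, b j ∈ S := fun j => ⟨a i₁, (hE i₁ j).symm⟩
    let F : ι × κ → H.edgeSet := fun p =>
      ⟨s(g.symm ⟨a p.1, haS p.1⟩, g.symm ⟨b p.2, hbS p.2⟩), by
        rw [SimpleGraph.mem_edgeSet, hHadj, hfg, hfg]; exact hE _ _⟩
    have hF : Function.Injective F := by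
      rintro ⟨i, j⟩ ⟨i', j'⟩ h
      have h1 : s(g.symm ⟨a i, haS i⟩, g.symm ⟨b j, hbS j⟩) =
        s(g.symm ⟨a i', haS i'⟩, g.symm ⟨b j', hbS j'⟩) := congrArg Subtype.val h
      have h2 : s(a i, b j) = s(a i', b j') := by
        have := congrArg (Sym2.map f) h1
        simpa only [Sym2.map_mk, hfg] using this
      rw [Sym2.eq_iff] at h2
      rcases h2 with ⟨h3, h4⟩ | ⟨h3, _⟩
      · rw [ha h3, hb h4]
      · exact absurd h3 (hab i j')
    have := Nat.card_le_card_of_injective F hF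
    rwa [Nat.card_prod] at this

/-- The critical graph obtained from two gadgets. -/
theorem critical_of_sides {n : ℕ} {ι κ : Type} {t : ℕ} {P Q : ℕ → Prop} (hn : 1 ≤ n)
    (A : Side n ι t P) (B : Side n κ t Q) (hι : Nonempty ι) (hκ : Nonempty κ)
    (hPQ : ∀ s, P s → Q s → False) (hPt : ¬ P t) (hQt : ¬ Q t)
    {L : Type} [Finite L] {Λ : SimpleGraph L} (hconn : Λ.Connected) (hχ : ¬ Λ.Colorable n)
    {α β : L} (hαβ : Λ.Adj α β) :
    ∃ (m : ℕ) (H : SimpleGraph (Fin m)) (_ : H →g Λ),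
      m ≤ Nat.card (Fin n × L) + (Nat.card A.V + Nat.card B.V) ∧
      H.chromaticNumber = ((n + 1 : ℕ) : ℕ∞) ∧
      (∀ e ∈ H.edgeSet, (H.deleteEdges {e}).Colorable n) ∧
      (∀ v, ∃ w, H.Adj v w) ∧ Nat.card ι * Nat.card κ ≤ Nat.card H.edgeSet := by
  have := A.fin
  have := B.fin
  obtain ⟨m, H, hom, h1, h2, h3, h4, h5⟩ := exists_critical' (joined A B Λ α β) hn
    (joined_not_colorable hconn hχ α β)
    (fun i => Sum.inr (Sum.inl (A.a i))) (fun j => Sum.inr (Sum.inr (B.a j)))
    (Sum.inr_injective.comp (Sum.inl_injective.comp A.inj))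
    (Sum.inr_injective.comp (Sum.inr_injective.comp B.inj))
    (fun i j h => by simp at h) hι hκ
    (fun i j => joined_delete_colorable hPQ hPt hQt i j)
  refine ⟨m, H, (jprojHom A B hαβ).comp hom, ?_, h2, h3, h4, h5⟩
  rwa [Nat.card_sum, Nat.card_sum] at h1

end CritDens
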