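import Mathlib

/-! # Graphs of large chromatic number and large odd girth (iterated arc digraphs) -/

set_option autoImplicit false

namespace CritDens

/-- Walks in a digraph `R`, using arcs forward and backward; `n` is the number of steps and `z` is the
number of forward steps minus the number of backward steps. -/
inductive ZW {V : Type} (R : V → V → Prop) : V → V → ℕ → ℤ → Prop
  | nil (v : V) : ZW R v v 0 0
  | fwd {u v w : V} {n : ℕ} {z : ℤ} : R u v → ZW R v w n z → ZW R u w (n + 1) (z + 1)
  | bwd {u v w : V} {n : ℕ} {z : ℤ} : R v u → ZW R v w n z → ZW R u w (n + 1) (z - 1)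

/-- The arc digraph of `R`. -/
abbrev Arc {V : Type} (R : V → V → Prop) : Type := {p : V × V // R p.1 p.2}

/-- Adjacency in the arc digraph. -/
def ArcR {V : Type} (R : V → V → Prop) : Arc R → Arc R → Prop := fun p q => p.1.2 = q.1.1

/-- Walks of backward steps only. -/
inductive BW {V : Type} (R : V → V → Prop) : V → V → ℕ → Prop
  | nil (v : V) : BW R v v 0
  | cons {u v w : V} {n : ℕ} : R v u → BW R v w n → BW R u w (n + 1)

/-- Walks of forward steps only. -/
inductive FW {V : Type} (R : V → V → Prop) : V → V → ℕ → Prop
  | nil (v : V) : FW R v v 0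
  | cons {u v w : V} {n : ℕ} : R u v → FW R v w n → FW R u w (n + 1)

/-- Walks of the form backward steps, then forward steps. -/
inductive VW {V : Type} (R : V → V → Prop) : V → V → ℕ → ℤ → Prop
  | up {u w : V} {n : ℕ} : FW R u w n → VW R u w n n
  | bwd {u v w : V} {n : ℕ} {z : ℤ} : R v u → VW R v w n z → VW R u w (n + 1) (z - 1)

section
variable {V : Type} {R : V → V → Prop}

/-- Taking heads maps a walk of the arc digraph to a walk. -/
lemma ZW.heads {e f : Arc R} {n : ℕ} {z : ℤ} (h : ZW (ArcR R) e f n z) :
    ZW R e.1.2 f.1.2 n z := by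
  induction h with
  | nil v => exact ZW.nil _
  | @fwd u v w n z huv _ ih =>
      refine ZW.fwd ?_ ih
      have : u.1.2 = v.1.1 := huv
      rw [this]; exact v.2
  | @bwd u v w n z huv _ ih =>
      refine ZW.bwd ?_ ih
      have : v.1.2 = u.1.1 := huv
      rw [this]; exact u.2

lemma FW.toZW {u w : V} {n : ℕ} (h : FW R u w n) : ZW R u w n n := by
  induction h with
  | nil v => exact ZW.nil _
  | cons h _ ih => push_cast; exact ZW.fwd h ih

lemma VW.toZW {u w : V} {n : ℕ} {z : ℤ} (h : VW R u w n z) : ZW R u w n z := by
  induction h with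
  | up h => exact h.toZW
  | bwd h _ ih => exact ZW.bwd h ih

/-- Either a walk of the arc digraph has a peak, and then the walk of heads can be shortened,
or it goes backward and then forward. -/
lemma ZW.peak {e f : Arc R} {n : ℕ} {z : ℤ} (h : ZW (ArcR R) e f n z) :
    (∃ m, n = m + 2 ∧ ZW R e.1.2 f.1.2 m z) ∨ VW (ArcR R) e f n z := by
  induction h with
  | nil v => exact Or.inr (VW.up (FW.nil _))
  | @fwd u v w n z huv _ ih =>
      rcases ih with ⟨m, rfl, hm⟩ | hv
      · left
        refine ⟨m + 1, rfl, ZW.fwd ?_ hm⟩
        have : u.1.2 = v.1.1 := huv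
        rw [this]; exact v.2
      · cases hv with
        | up hf =>
            right
            exact_mod_cast VW.up (FW.cons huv hf)
        | @bwd _ v' _ n' z' hb hv' =>
            left
            refine ⟨n', rfl, ?_⟩
            have h1 := hv'.toZW.heads
            have h2 : u.1.2 = v.1.1 := huv
            have h3 : v'.1.2 = v.1.1 := hb
            rw [h2, ← h3]
            have : z' - 1 + 1 = z' := by ring
            rw [this]; exact h1
  | @bwd u v w n z huv _ ih =>
      rcases ih with ⟨m, rfl, hm⟩ | hv
      · left
        refine ⟨m + 1, rfl, ZW.bwd ?_ hm⟩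
        have : v.1.2 = u.1.1 := huv
        rw [this]; exact u.2
      · right
        exact VW.bwd huv hv

/-- The last step of a forward walk. -/
lemma FW.snoc {u w : V} {n : ℕ} (h : FW R u w (n + 1)) : ∃ v, FW R u v n ∧ R v w := by
  induction n generalizing u with
  | zero =>
      cases h with
      | cons h1 h2 => cases h2; exact ⟨_, FW.nil _, h1⟩
  | succ n ih =>
      cases h with
      | cons h1 h2 =>
          obtain ⟨v, hv, hr⟩ := ih h2
          exact ⟨v, FW.cons h1 hv, hr⟩

/-- A walk backward, then forward is either entirely backward or ends with a forward step. -/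
lemma VW.snoc {u w : V} {n : ℕ} {z : ℤ} (h : VW R u w n z) :
    BW R u w n ∨ ∃ m v, n = m + 1 ∧ VW R u v m (z - 1) ∧ R v w := by
  induction h with
  | @up u w n hf =>
      cases n with
      | zero => cases hf; exact Or.inl (BW.nil _)
      | succ n =>
          right
          obtain ⟨v, hv, hr⟩ := hf.snoc
          refine ⟨n, v, rfl, ?_, hr⟩
          have := VW.up hv
          push_cast
          simpa using this
  | @bwd u v w n z h _ ih =>
      rcases ih with ih | ⟨m, v', rfl, hv, hr⟩
      · exact Or.inl (BW.cons h ih)
      · right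
        refine ⟨m + 1, v', rfl, ?_, hr⟩
        have := VW.bwd h hv
        have h2 : z - 1 - 1 = z - 1 - 1 := rfl
        exact this

lemma FW.rank {f : V → ℕ} (hf : ∀ u v, R u v → f u < f v) {u w : V} {n : ℕ} (h : FW R u w n) :
    f u + n ≤ f w := by
  induction h with
  | nil v => simp
  | cons h _ ih => have := hf _ _ h; omega

lemma BW.rank {f : V → ℕ} (hf : ∀ u v, R u v → f u < f v) {u w : V} {n : ℕ} (h : BW R u w n) :
    f w + n ≤ f u := by
  induction h with
  | nil v => simp
  | cons h _ ih => have := hf _ _ h; omega

/-- Closed walks with nonzero net length have length at least `g`. -/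
def Q {V : Type} (R : V → V → Prop) (g : ℕ) : Prop :=
  ∀ (v : V) (n : ℕ) (z : ℤ), ZW R v v n z → z ≠ 0 → g ≤ n

/-- The arc digraph of an acyclic digraph has larger odd girth. -/
lemma Q.arc {g : ℕ} {f : V → ℕ} (hf : ∀ u v, R u v → f u < f v) (hQ : Q R g) :
    Q (ArcR R) (g + 2) := by
  intro e n z h hz
  rcases h.peak with ⟨m, rfl, hm⟩ | hv
  · have := hQ _ _ _ hm hz
    omega
  · have hfA : ∀ p q : Arc R, ArcR R p q → f p.1.1 < f q.1.1 := by
      intro p q hpq
      have h1 : p.1.2 = q.1.1 := hpq
      rw [← h1]; exact hf _ _ p.2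
    cases hv with
    | up hfw =>
        have := hfw.rank (f := fun p : Arc R => f p.1.1) hfA
        have h0 : n = 0 := by omega
        subst h0
        simp at hz
    | @bwd _ e1 _ n1 z1 hb hv1 =>
        rcases hv1.snoc with hb1 | ⟨m, e2, rfl, hv2, hr2⟩
        · have h1 := hb1.rank (f := fun p : Arc R => f p.1.1) hfA
          have h2 := hfA _ _ hb
          omega
        · have h1 := hv2.toZW.heads
          have h2 : e1.1.2 = e.1.1 := hb
          have h3 : e2.1.2 = e.1.1 := hr2
          rw [h2, h3] at h1
          have := hQ _ _ _ h1 hz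
          omega

/-- Colourings of the arc digraph give colourings of the digraph. -/
lemma arc_colorable {n : ℕ} (c : Arc R → Fin n) (hc : ∀ p q, ArcR R p q → c p ≠ c q) :
    ∃ C : V → Finset (Fin n), ∀ u v, R u v → C u ≠ C v := by
  classical
  refine ⟨fun u => Finset.univ.filter (fun t => ∃ v, ∃ h : R u v, c ⟨(u, v), h⟩ = t), ?_⟩
  intro u v huv hC
  have h1 : c ⟨(u, v), huv⟩ ∈ Finset.univ.filter (fun t => ∃ w, ∃ h : R u w, c ⟨(u, w), h⟩ = t) := by
    simp only [Finset.mem_filter, Finset.mem_univ, true_and]
    exact ⟨v, huv, rfl⟩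
  have h2 : c ⟨(u, v), huv⟩ ∈ Finset.univ.filter (fun t => ∃ w, ∃ h : R v w, c ⟨(v, w), h⟩ = t) :=
    (Finset.ext_iff.mp hC _).mp h1
  simp only [Finset.mem_filter, Finset.mem_univ, true_and] at h2
  obtain ⟨w, hw, hcw⟩ := h2
  exact hc ⟨(u, v), huv⟩ ⟨(v, w), hw⟩ rfl hcw.symm

end

/-- For every `r` and `n` there is a finite acyclic digraph whose closed walks with nonzero net
length have length at least `2 r + 3` and which is not `n`-colourable. -/
lemma exists_digraph (r : ℕ) : ∀ n : ℕ, ∃ (V : Type) (_ : Finite V) (R : V → V → Prop) (f : V → ℕ),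
    (∀ u v, R u v → f u < f v) ∧ Q R (2 * r + 3) ∧
    ∀ c : V → Fin n, ∃ u v, R u v ∧ c u = c v := by
  induction r with
  | zero =>
      intro n
      refine ⟨Fin (n + 1), inferInstance, (· < ·), fun v => v, fun u v h => h, ?_, ?_⟩
      · intro v m z h hz
        by_contra hlt
        push Not at hlt
        cases h with
        | nil => simp at hz
        | @fwd _ v1 _ m1 z1 h1 h2 =>
            cases h2 with
            | nil => exact absurd h1 (lt_irrefl _)
            | @fwd _ v2 _ m2 z2 h3 h4 =>
                cases h4 with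
                | nil => exact absurd (h1.trans h3) (lt_irrefl _)
                | fwd => omega
                | bwd => omega
            | @bwd _ v2 _ m2 z2 h3 h4 =>
                cases h4 with
                | nil => simp at hz
                | fwd => omega
                | bwd => omega
        | @bwd _ v1 _ m1 z1 h1 h2 =>
            cases h2 with
            | nil => exact absurd h1 (lt_irrefl _)
            | @fwd _ v2 _ m2 z2 h3 h4 =>
                cases h4 with
                | nil => simp at hz
                | fwd => omega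
                | bwd => omega
            | @bwd _ v2 _ m2 z2 h3 h4 =>
                cases h4 with
                | nil => exact absurd (h3.trans h1) (lt_irrefl _)
                | fwd => omega
                | bwd => omega
      · intro c
        obtain ⟨u, v, huv, hc⟩ := Fintype.exists_ne_map_eq_of_card_lt c (by simp)
        rcases lt_or_gt_of_ne huv with h | h
        · exact ⟨u, v, h, hc⟩
        · exact ⟨v, u, h, hc.symm⟩
  | succ r ih =>
      intro n
      obtain ⟨V, hV, R, f, hf, hQ, hc⟩ := ih (2 ^ n)
      refine ⟨Arc R, ?_, ArcR R, fun p => f p.1.1, ?_, ?_, ?_⟩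
      · unfold Arc; infer_instance
      · intro p q hpq
        have h1 : p.1.2 = q.1.1 := hpq
        simp only
        rw [← h1]; exact hf _ _ p.2
      · have := hQ.arc hf
        have e : 2 * (r + 1) + 3 = 2 * r + 3 + 2 := by ring
        rw [e]; exact this
      · intro c
        by_contra hne
        push Not at hne
        obtain ⟨C, hC⟩ := arc_colorable c hne
        have e : Fintype.card (Finset (Fin n)) = 2 ^ n := by simp
        obtain ⟨u, v, huv, h⟩ := hc (fun v => (Fintype.equivFinOfCardEq e) (C v))
        exact hC u v huv ((Fintype.equivFinOfCardEq e).injective h)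

/-- Odd closed walks of the underlying graph. -/
lemma walk_toZW {V : Type} {R : V → V → Prop} {G : SimpleGraph V}
    (hG : ∀ u v, G.Adj u v → R u v ∨ R v u) {u v : V} (p : G.Walk u v) :
    ∃ z : ℤ, ZW R u v p.length z ∧ (p.length : ℤ) % 2 = z % 2 := by
  induction p with
  | nil => exact ⟨0, ZW.nil _, by simp⟩
  | @cons u v w h p ih =>
      obtain ⟨z, hz, hpar⟩ := ih
      rcases hG _ _ h with h1 | h1
      · refine ⟨z + 1, ?_, ?_⟩
        · simpa using ZW.fwd h1 hz
        · simp only [SimpleGraph.Walk.length_cons]; push_cast; omega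
      · refine ⟨z - 1, ?_, ?_⟩
        · simpa using ZW.bwd h1 hz
        · simp only [SimpleGraph.Walk.length_cons]; push_cast; omega

/-- For all `n` and `g` there is a finite connected graph that is not `n`-colourable and has
no odd closed walk of length less than `g`. -/
theorem exists_graph (n g : ℕ) : ∃ (V : Type) (_ : Finite V) (G : SimpleGraph V),
    G.Connected ∧ ¬ G.Colorable n ∧
    ∀ (v : V) (p : G.Walk v v), Odd p.length → g ≤ p.length := by
  obtain ⟨V, hV, R, f, hf, hQ, hc⟩ := exists_digraph g n
  let G : SimpleGraph V := SimpleGraph.fromRel R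
  have hGn : ¬ G.Colorable n := by
    rintro ⟨C⟩
    obtain ⟨u, v, huv, h⟩ := hc C
    have hne : u ≠ v := by
      rintro rfl
      exact lt_irrefl _ (hf _ _ huv)
    have : G.Adj u v := by
      rw [SimpleGraph.fromRel_adj]
      exact ⟨hne, Or.inl huv⟩
    exact C.valid this h
  have hodd : ∀ (v : V) (p : G.Walk v v), Odd p.length → g ≤ p.length := by
    intro v p hp
    obtain ⟨z, hz, hpar⟩ := walk_toZW (R := R) (G := G)
      (fun u v h => by rw [SimpleGraph.fromRel_adj] at h; exact h.2) p
    have hz0 : z ≠ 0 := by
      rintro rfl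
      obtain ⟨m, hm⟩ := hp
      omega
    have := hQ _ _ _ hz hz0
    omega
  rw [SimpleGraph.colorable_iff_forall_connectedComponent] at hGn
  push Not at hGn
  obtain ⟨c, hcc⟩ := hGn
  refine ⟨c, inferInstance, c.toSimpleGraph, c.connected_toSimpleGraph, hcc, ?_⟩
  intro v p hp
  have := hodd _ (p.map c.toSimpleGraph_hom) (by simpa using hp)
  simpa using this

end CritDens
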