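import Pool.Agent.CritDens.Crit

/-! # Bipartite list gadgets: paths and products -/

set_option autoImplicit false

namespace CritDens

/-- A bipartite graph with forbidden colours (`F v s`: the vertex `v` must not get the colour `s`)
and distinguished vertices `a i`, such that every admissible `n`-colouring gives the colour `t` to
some `a i`, and such that for each `i₀` there is an admissible colouring with `a i₀` coloured `t`
and all other `a i` coloured from `P`. -/
structure Side (n : ℕ) (ι : Type) (t : ℕ) (P : ℕ → Prop) where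
  V : Type
  fin : Finite V
  E : V → V → Prop
  pos : V → Bool
  hE : ∀ u v, E u v → pos v = !pos u
  F : V → ℕ → Prop
  a : ι → V
  inj : Function.Injective a
  apos : ∀ i, pos (a i) = true
  force : ∀ c : V → ℕ, (∀ v, c v < n) → (∀ u v, E u v → c u ≠ c v) →
    (∀ v s, F v s → c v ≠ s) → ∃ i, c (a i) = t
  crit : ∀ i₀, ∃ c : V → ℕ, (∀ v, c v < n) ∧ (∀ u v, E u v → c u ≠ c v) ∧
    (∀ v s, F v s → c v ≠ s) ∧ c (a i₀) = t ∧ ∀ i, i ≠ i₀ → P (c (a i))

/-! ## The path gadget -/

/-- Vertices of the path gadget. -/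
inductive OrV (r : ℕ) : Type
  | x (i : Fin r)
  | z (i : Fin r)
  | y (i : Fin (r + 1))

/-- The path gadget has `3 r + 1` vertices. -/
def orEquiv (r : ℕ) : OrV r ≃ (Fin r ⊕ Fin r ⊕ Fin (r + 1)) where
  toFun
    | .x i => Sum.inl i
    | .z i => Sum.inr (Sum.inl i)
    | .y i => Sum.inr (Sum.inr i)
  invFun
    | Sum.inl i => .x i
    | Sum.inr (Sum.inl i) => .z i
    | Sum.inr (Sum.inr i) => .y i
  left_inv := by rintro (i | i | i) <;> rfl
  right_inv := by rintro (i | i | i) <;> rfl

lemma orCard (r : ℕ) : Nat.card (OrV r) = 3 * r + 1 := by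
  rw [Nat.card_congr (orEquiv r)]
  simp only [Nat.card_eq_fintype_card, Fintype.card_sum, Fintype.card_fin]
  ring

/-- Edges of the path gadget. -/
inductive OrE (r : ℕ) : OrV r → OrV r → Prop
  | xz (i : Fin r) : OrE r (.x i) (.z i)
  | yz (i : Fin r) : OrE r (.y i.castSucc) (.z i)
  | zy (i : Fin r) : OrE r (.y i.succ) (.z i)

/-- Side of the bipartition. -/
def orPos {r : ℕ} : OrV r → Bool
  | .x _ => true
  | .z _ => false
  | .y _ => true

/-- Forbidden colours. -/
inductive OrF (r d t u : ℕ) : OrV r → ℕ → Prop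
  | other (v : OrV r) (s : ℕ) : s ≠ d → s ≠ t → s ≠ u → OrF r d t u v s
  | x (i : Fin r) : OrF r d t u (.x i) u
  | y (i : Fin (r + 1)) : OrF r d t u (.y i) d
  | y0 : OrF r d t u (.y 0) t
  | yN : OrF r d t u (.y (Fin.last r)) u

/-- Colouring of the path gadget. -/
def orCol {r : ℕ} (d t u : ℕ) (k : Fin r) : OrV r → ℕ
  | .x i => if i = k then t else d
  | .y i => if (i : ℕ) ≤ (k : ℕ) then u else t
  | .z i => if (i : ℕ) < (k : ℕ) then t else if i = k then d else u

/-- The path gadget: every admissible colouring gives the colour `t` to some `x i`. -/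
def orSide (n r d t u : ℕ) (hd : d < n) (ht : t < n) (hu : u < n) (hdt : d ≠ t) (hdu : d ≠ u)
    (htu : t ≠ u) : Side n (Fin r) t (fun s => s = d) where
  V := OrV r
  fin := Finite.of_equiv _ (orEquiv r).symm
  E := OrE r
  pos := orPos
  hE := by
    intro u v h
    cases h <;> rfl
  F := OrF r d t u
  a := fun i => .x i
  inj := by
    intro i j h
    injection h
  apos := fun _ => rfl
  force := by
    intro c _ hE hF
    by_contra hne
    push Not at hne
    have h3 : ∀ v, c v = d ∨ c v = t ∨ c v = u := by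
      intro v
      by_contra h
      push Not at h
      exact hF v (c v) (OrF.other v _ h.1 h.2.1 h.2.2) rfl
    have hx : ∀ i, c (.x i) = d := by
      intro i
      have h1 := hF _ _ (OrF.x (d := d) (t := t) (u := u) i)
      have h2 := hne i
      rcases h3 (.x i) with h | h | h
      · exact h
      · exact absurd h h2
      · exact absurd h h1
    have hy : ∀ i : Fin (r + 1), c (.y i) = u := by
      intro i
      induction i using Fin.induction with
      | zero =>
          have h1 := hF _ _ (OrF.y (d := d) (t := t) (u := u) (0 : Fin (r + 1)))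
          have h2 := hF _ _ (OrF.y0 (r := r) (d := d) (t := t) (u := u))
          rcases h3 (.y 0) with h | h | h
          · exact absurd h h1
          · exact absurd h h2
          · exact h
      | succ i ih =>
          have h1 := hE _ _ (OrE.xz i)
          have h2 := hE _ _ (OrE.yz i)
          have h4 := hE _ _ (OrE.zy i)
          have h5 := hF _ _ (OrF.y (d := d) (t := t) (u := u) i.succ)
          rw [hx] at h1
          rw [ih] at h2
          have hz : c (.z i) = t := by
            rcases h3 (.z i) with h | h | h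
            · exact absurd h.symm h1
            · exact h
            · exact absurd h.symm h2
          rw [hz] at h4
          rcases h3 (.y i.succ) with h | h | h
          · exact absurd h h5
          · exact absurd h h4
          · exact h
    exact hF _ _ (OrF.yN (r := r) (d := d) (t := t) (u := u)) (hy _)
  crit := by
    intro k
    refine ⟨orCol d t u k, ?_, ?_, ?_, ?_, ?_⟩
    · intro v
      cases v <;> simp only [orCol] <;> split_ifs <;> assumption
    · intro v w h
      cases h with
      | xz i =>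
          have e : i = k ↔ (i : ℕ) = (k : ℕ) := by rw [Fin.ext_iff]
          simp only [orCol, e]
          split_ifs <;> omega
      | yz i =>
          have e : i = k ↔ (i : ℕ) = (k : ℕ) := by rw [Fin.ext_iff]
          simp only [orCol, e, Fin.val_castSucc]
          split_ifs <;> omega
      | zy i =>
          have e : i = k ↔ (i : ℕ) = (k : ℕ) := by rw [Fin.ext_iff]
          simp only [orCol, e, Fin.val_succ]
          split_ifs <;> omega
    · intro v s h
      cases h with
      | other v s h1 h2 h3 =>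
          cases v <;> simp only [orCol] <;> split_ifs <;> omega
      | x i => simp only [orCol]; split_ifs <;> omega
      | y i => simp only [orCol]; split_ifs <;> omega
      | y0 => simp only [orCol]; simp; omega
      | yN =>
          have := k.isLt
          simp only [orCol, Fin.val_last]
          split_ifs <;> omega
    · simp [orCol]
    · intro i hi
      simp [orCol, hi]

/-! ## Products -/

section
variable {n : ℕ} {ι κ : Type}

/-- Edges of the first product. -/
inductive ProdE₁ {p q : ℕ} {P Q : ℕ → Prop} (X : Side n ι p P) (Y : Side n κ q Q) :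
    (ι × κ) ⊕ (X.V ⊕ Y.V) → (ι × κ) ⊕ (X.V ⊕ Y.V) → Prop
  | ax (i : ι) (j : κ) : ProdE₁ X Y (Sum.inl (i, j)) (Sum.inr (Sum.inl (X.a i)))
  | ay (i : ι) (j : κ) : ProdE₁ X Y (Sum.inl (i, j)) (Sum.inr (Sum.inr (Y.a j)))
  | x (u v : X.V) : X.E u v → ProdE₁ X Y (Sum.inr (Sum.inl u)) (Sum.inr (Sum.inl v))
  | y (u v : Y.V) : Y.E u v → ProdE₁ X Y (Sum.inr (Sum.inr u)) (Sum.inr (Sum.inr v))

/-- Forbidden colours of the first product. -/
inductive ProdF₁ (t : ℕ) {p q : ℕ} {P Q : ℕ → Prop} (X : Side n ι p P) (Y : Side n κ q Q) :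
    (ι × κ) ⊕ (X.V ⊕ Y.V) → ℕ → Prop
  | a (i : ι) (j : κ) (s : ℕ) : s ≠ p → s ≠ q → s ≠ t → ProdF₁ t X Y (Sum.inl (i, j)) s
  | x (v : X.V) (s : ℕ) : X.F v s → ProdF₁ t X Y (Sum.inr (Sum.inl v)) s
  | y (v : Y.V) (s : ℕ) : Y.F v s → ProdF₁ t X Y (Sum.inr (Sum.inr v)) s

open Classical in
/-- First product: `a i j` is adjacent to `x i` and `y j`. -/
noncomputable def prod₁ {p q t : ℕ} (hp : p < n) (hq : q < n) (ht : t < n) (hpq : p ≠ q)
    (hpt : p ≠ t) (hqt : q ≠ t) (X : Side n ι p (fun s => s = t)) (Y : Side n κ q (fun s => s = t))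
    (hι : Finite ι) (hκ : Finite κ) :
    Side n (ι × κ) t (fun s => s = p ∨ s = q) where
  V := (ι × κ) ⊕ (X.V ⊕ Y.V)
  fin := by
    have := X.fin
    have := Y.fin
    infer_instance
  E := ProdE₁ X Y
  pos := fun v => match v with
    | Sum.inl _ => true
    | Sum.inr (Sum.inl v) => !X.pos v
    | Sum.inr (Sum.inr v) => !Y.pos v
  hE := by
    intro u v h
    cases h with
    | ax i j => simp [X.apos]
    | ay i j => simp [Y.apos]
    | x u v h => simp [X.hE _ _ h]
    | y u v h => simp [Y.hE _ _ h]
  F := ProdF₁ t X Y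
  a := Sum.inl
  inj := Sum.inl_injective
  apos := fun _ => rfl
  force := by
    intro c hn hE hF
    obtain ⟨i, hi⟩ := X.force (fun v => c (Sum.inr (Sum.inl v))) (fun v => hn _)
      (fun u v h => hE _ _ (ProdE₁.x u v h)) (fun v s h => hF _ _ (ProdF₁.x v s h))
    obtain ⟨j, hj⟩ := Y.force (fun v => c (Sum.inr (Sum.inr v))) (fun v => hn _)
      (fun u v h => hE _ _ (ProdE₁.y u v h)) (fun v s h => hF _ _ (ProdF₁.y v s h))
    refine ⟨(i, j), ?_⟩
    have h1 := hE _ _ (ProdE₁.ax (X := X) (Y := Y) i j)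
    have h2 := hE _ _ (ProdE₁.ay (X := X) (Y := Y) i j)
    rw [hi] at h1
    rw [hj] at h2
    by_contra h3
    exact hF _ _ (ProdF₁.a (t := t) (X := X) (Y := Y) i j _ h1 h2 h3) rfl
  crit := by
    rintro ⟨i₀, j₀⟩
    obtain ⟨cx, hx1, hx2, hx3, hx4, hx5⟩ := X.crit i₀
    obtain ⟨cy, hy1, hy2, hy3, hy4, hy5⟩ := Y.crit j₀
    refine ⟨fun v => match v with
      | Sum.inl (i, j) => if i = i₀ then (if j = j₀ then t else q) else p
      | Sum.inr (Sum.inl v) => cx v
      | Sum.inr (Sum.inr v) => cy v, ?_, ?_, ?_, ?_, ?_⟩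
    · rintro (⟨i, j⟩ | v | v)
      · simp only; split_ifs <;> assumption
      · exact hx1 v
      · exact hy1 v
    · intro u v h
      cases h with
      | ax i j =>
          simp only
          by_cases hi : i = i₀
          · subst hi; rw [hx4]; simp only [if_true]; split_ifs <;> omega
          · rw [hx5 i hi]; simp only [if_neg hi]; omega
      | ay i j =>
          simp only
          by_cases hj : j = j₀
          · subst hj; rw [hy4]; simp only [if_true]; split_ifs <;> omega
          · rw [hy5 j hj]; simp only [if_neg hj]; split_ifs <;> omega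
      | x u v h => exact hx2 u v h
      | y u v h => exact hy2 u v h
    · intro v s h
      cases h with
      | a i j s h1 h2 h3 => simp only; split_ifs <;> omega
      | x v s h => exact hx3 v s h
      | y v s h => exact hy3 v s h
    · simp
    · rintro ⟨i, j⟩ hij
      by_cases hi : i = i₀
      · have hj : j ≠ j₀ := by
          rintro rfl; exact hij (by rw [hi])
        simp [hi, hj]
      · simp [hi]

/-- Edges of the second product. -/
inductive ProdE₂ {p q : ℕ} {P Q : ℕ → Prop} (X : Side n ι p P) (Y : Side n κ q Q) :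
    ((ι × κ) ⊕ (ι × κ)) ⊕ (X.V ⊕ Y.V) → ((ι × κ) ⊕ (ι × κ)) ⊕ (X.V ⊕ Y.V) → Prop
  | aw (i : ι) (j : κ) : ProdE₂ X Y (Sum.inl (Sum.inl (i, j))) (Sum.inl (Sum.inr (i, j)))
  | wx (i : ι) (j : κ) : ProdE₂ X Y (Sum.inl (Sum.inr (i, j))) (Sum.inr (Sum.inl (X.a i)))
  | wy (i : ι) (j : κ) : ProdE₂ X Y (Sum.inl (Sum.inr (i, j))) (Sum.inr (Sum.inr (Y.a j)))
  | x (u v : X.V) : X.E u v → ProdE₂ X Y (Sum.inr (Sum.inl u)) (Sum.inr (Sum.inl v))
  | y (u v : Y.V) : Y.E u v → ProdE₂ X Y (Sum.inr (Sum.inr u)) (Sum.inr (Sum.inr v))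

/-- Forbidden colours of the second product. -/
inductive ProdF₂ (p q t : ℕ) {p' q' : ℕ} {P Q : ℕ → Prop} (X : Side n ι p' P) (Y : Side n κ q' Q) :
    ((ι × κ) ⊕ (ι × κ)) ⊕ (X.V ⊕ Y.V) → ℕ → Prop
  | a (i : ι) (j : κ) (s : ℕ) : s ≠ p → s ≠ t → ProdF₂ p q t X Y (Sum.inl (Sum.inl (i, j))) s
  | w (i : ι) (j : κ) (s : ℕ) : s ≠ p → s ≠ q → s ≠ t →
      ProdF₂ p q t X Y (Sum.inl (Sum.inr (i, j))) s
  | x (v : X.V) (s : ℕ) : X.F v s → ProdF₂ p q t X Y (Sum.inr (Sum.inl v)) s
  | y (v : Y.V) (s : ℕ) : Y.F v s → ProdF₂ p q t X Y (Sum.inr (Sum.inr v)) s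

open Classical in
/-- Second product: `a i j` has the private neighbour `w i j`, which is adjacent to `x i`
and `y j`. -/
noncomputable def prod₂ {p q t : ℕ} (hp : p < n) (hq : q < n) (ht : t < n) (hpq : p ≠ q)
    (hpt : p ≠ t) (hqt : q ≠ t) (X : Side n ι q (fun s => s = p)) (Y : Side n κ t (fun s => s = p))
    (hι : Finite ι) (hκ : Finite κ) :
    Side n (ι × κ) t (fun s => s = p) where
  V := ((ι × κ) ⊕ (ι × κ)) ⊕ (X.V ⊕ Y.V)
  fin := by
    have := X.fin
    have := Y.fin
    infer_instance
  E := ProdE₂ X Y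
  pos := fun v => match v with
    | Sum.inl (Sum.inl _) => true
    | Sum.inl (Sum.inr _) => false
    | Sum.inr (Sum.inl v) => X.pos v
    | Sum.inr (Sum.inr v) => Y.pos v
  hE := by
    intro u v h
    cases h with
    | aw i j => rfl
    | wx i j => simp [X.apos]
    | wy i j => simp [Y.apos]
    | x u v h => simp [X.hE _ _ h]
    | y u v h => simp [Y.hE _ _ h]
  F := ProdF₂ p q t X Y
  a := fun i => Sum.inl (Sum.inl i)
  inj := Sum.inl_injective.comp Sum.inl_injective
  apos := fun _ => rfl
  force := by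
    intro c hn hE hF
    obtain ⟨i, hi⟩ := X.force (fun v => c (Sum.inr (Sum.inl v))) (fun v => hn _)
      (fun u v h => hE _ _ (ProdE₂.x u v h)) (fun v s h => hF _ _ (ProdF₂.x v s h))
    obtain ⟨j, hj⟩ := Y.force (fun v => c (Sum.inr (Sum.inr v))) (fun v => hn _)
      (fun u v h => hE _ _ (ProdE₂.y u v h)) (fun v s h => hF _ _ (ProdF₂.y v s h))
    refine ⟨(i, j), ?_⟩
    have h1 := hE _ _ (ProdE₂.wx (X := X) (Y := Y) i j)
    have h2 := hE _ _ (ProdE₂.wy (X := X) (Y := Y) i j)
    have h3 := hE _ _ (ProdE₂.aw (X := X) (Y := Y) i j)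
    rw [hi] at h1
    rw [hj] at h2
    have hw : c (Sum.inl (Sum.inr (i, j))) = p := by
      by_contra h4
      exact hF _ _ (ProdF₂.w (p := p) (q := q) (t := t) (X := X) (Y := Y) i j _ h4 h1 h2) rfl
    rw [hw] at h3
    by_contra h4
    exact hF _ _ (ProdF₂.a (p := p) (q := q) (t := t) (X := X) (Y := Y) i j _ h3 h4) rfl
  crit := by
    rintro ⟨i₀, j₀⟩
    obtain ⟨cx, hx1, hx2, hx3, hx4, hx5⟩ := X.crit i₀
    obtain ⟨cy, hy1, hy2, hy3, hy4, hy5⟩ := Y.crit j₀
    refine ⟨fun v => match v with
      | Sum.inl (Sum.inl (i, j)) => if i = i₀ then (if j = j₀ then t else p) else p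
      | Sum.inl (Sum.inr (i, j)) => if i = i₀ then (if j = j₀ then p else t) else q
      | Sum.inr (Sum.inl v) => cx v
      | Sum.inr (Sum.inr v) => cy v, ?_, ?_, ?_, ?_, ?_⟩
    · rintro ((⟨i, j⟩ | ⟨i, j⟩) | v | v)
      · simp only; split_ifs <;> assumption
      · simp only; split_ifs <;> assumption
      · exact hx1 v
      · exact hy1 v
    · intro u v h
      cases h with
      | aw i j => simp only; split_ifs <;> omega
      | wx i j =>
          simp only
          by_cases hi : i = i₀
          · subst hi; rw [hx4]; simp only [if_true]; split_ifs <;> omega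
          · rw [hx5 i hi]; simp only [if_neg hi]; omega
      | wy i j =>
          simp only
          by_cases hj : j = j₀
          · subst hj; rw [hy4]; simp only [if_true]; split_ifs <;> omega
          · rw [hy5 j hj]; simp only [if_neg hj]; split_ifs <;> omega
      | x u v h => exact hx2 u v h
      | y u v h => exact hy2 u v h
    · intro v s h
      cases h with
      | a i j s h1 h2 => simp only; split_ifs <;> omega
      | w i j s h1 h2 h3 => simp only; split_ifs <;> omega
      | x v s h => exact hx3 v s h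
      | y v s h => exact hy3 v s h
    · simp
    · rintro ⟨i, j⟩ hij
      by_cases hi : i = i₀
      · have hj : j ≠ j₀ := by
          rintro rfl; exact hij (by rw [hi])
        simp [hi, hj]
      · simp [hi]

end

end CritDens
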